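import Pool.Agent.Helper52.KP.StW

/-!
# Project KP (MP_26be5b_ag), module SCA: scaling of the measure `ν`
-/

set_option autoImplicit false

namespace Pool.Agent.Helper29.KP

open MeasureTheory Filter Set Pool.Agent.Helper52.KP
open scoped Topology ENNReal

/-- change of variables for the scaling -/
theorem sca_lint {m : ℕ} (w : Fin m → ℕ) {r : ℝ} (hr : 0 < r) (f : (Fin m → ℂ) → ENNReal)
    (hf : Measurable f) :
    ∫⁻ z, f z = ENNReal.ofReal (r ^ (2 * ∑ j, w j)) * ∫⁻ z, f (scl w (r : ℂ) z) := by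
  obtain ⟨L, hLd⟩ : ∃ L : (Fin m → ℂ) →ₗ[ℝ] (Fin m → ℂ), L =
    (Matrix.toLin' (Matrix.diagonal fun j => (r : ℂ) ^ w j)).restrictScalars ℝ := ⟨_, rfl⟩
  have hL : ∀ z, L z = scl w (r : ℂ) z := by
    intro z
    ext j
    rw [hLd]
    simp [scl, Matrix.mulVec_diagonal]
  have hdet : LinearMap.det L = r ^ (2 * ∑ j, w j) := by
    rw [hLd, LinearMap.det_restrictScalars, LinearMap.det_toLin', Matrix.det_diagonal,
      Algebra.norm_complex_apply, Finset.prod_pow_eq_pow_sum, Complex.normSq_eq_norm_sq, norm_pow,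
      Complex.norm_real, Real.norm_of_nonneg hr.le, ← pow_mul, mul_comm]
  have hpos : 0 < r ^ (2 * ∑ j, w j) := by positivity
  have hmap := Measure.map_linearMap_addHaar_eq_smul_addHaar (volume : Measure (Fin m → ℂ))
    (f := L) (by rw [hdet]; exact hpos.ne')
  have hLm : Measurable L := (LinearMap.continuous_of_finiteDimensional L).measurable
  have h1 : ∫⁻ z, f (scl w (r : ℂ) z) = ∫⁻ z, f z ∂(Measure.map L volume) := by
    rw [lintegral_map hf hLm]
    simp_rw [hL]
  rw [h1, hmap, lintegral_smul_measure, hdet, smul_eq_mul, ← mul_assoc,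
    ← ENNReal.ofReal_mul hpos.le, abs_of_pos (inv_pos.2 hpos), mul_inv_cancel₀ hpos.ne',
    ENNReal.ofReal_one, one_mul]

/-- the integral of the density -/
theorem rpow_lint {a : ℝ} (ha : 0 < a) {b : ℝ} (hb : 0 < b) :
    ∫⁻ s in Ioo 0 b, ENNReal.ofReal (a * s ^ (a - 1)) = ENNReal.ofReal (b ^ a) := by
  have hint : IntegrableOn (fun s : ℝ => a * s ^ (a - 1)) (Ioo 0 b) := by
    have h := (intervalIntegral.intervalIntegrable_rpow' (a := 0) (b := b)
      (show -1 < a - 1 by linarith)).const_mul a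
    rw [intervalIntegrable_iff_integrableOn_Ioo_of_le hb.le] at h
    exact h
  rw [← ofReal_integral_eq_lintegral_ofReal hint]
  · congr 1
    rw [← integral_Ioc_eq_integral_Ioo, ← intervalIntegral.integral_of_le hb.le,
      intervalIntegral.integral_const_mul, integral_rpow (Or.inl (by linarith)), sub_add_cancel,
      Real.zero_rpow ha.ne', sub_zero]
    field_simp
  · refine (ae_restrict_iff' measurableSet_Ioo).2 (Eventually.of_forall fun s hs => ?_)
    have := hs.1
    simp only [Pi.zero_apply]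
    positivity

theorem hSCA : StSCA := by
  intro C hC D e hD he ψ g hψ hg hh hfin Φ hΦ
  have hUm : MeasurableSet C.U := by
    have h : Continuous fun z : Fin C.m → ℂ => ev C.Δ z := MvPolynomial.continuous_eval _
    exact (isOpen_ne_fun h continuous_const).measurableSet
  have hJm : Measurable fun z : Fin C.m → ℂ => ENNReal.ofReal (‖ev C.J z‖ ^ 2) := by
    have h : Continuous fun z : Fin C.m → ℂ => ev C.J z := MvPolynomial.continuous_eval _
    exact ENNReal.measurable_ofReal.comp ((h.norm.pow 2).measurable)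
  obtain ⟨a, had⟩ : ∃ a : ℝ, a = ((C.m : ℝ) + e) / D := ⟨_, rfl⟩
  have ha : 0 < a := by rw [had]; positivity
  -- the mass of `ψ < b`
  have hS : ∀ b : ℝ, MeasurableSet {z | z ∈ C.U ∧ ψ z < b} := fun b =>
    hUm.inter (hψ measurableSet_Iio)
  have hmass : ∀ b : ℝ, ∫⁻ z in {z | z ∈ C.U ∧ ψ z < b}, g z ∂C.nu =
      ∫⁻ z, {z | z ∈ C.U ∧ ψ z < b}.indicator (fun z => ENNReal.ofReal (‖ev C.J z‖ ^ 2) * g z) z := by
    intro b
    rw [lintegral_indicator (hS b)]
    unfold Cone.nu
    rw [setLIntegral_withDensity_eq_setLIntegral_mul _ hJm hg (hS b)]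
    rfl
  have hsc : ∀ b : ℝ, 0 < b → ∫⁻ z in {z | z ∈ C.U ∧ ψ z < b}, g z ∂C.nu =
      ENNReal.ofReal (b ^ a) * ∫⁻ z in {z | z ∈ C.U ∧ ψ z < 1}, g z ∂C.nu := by
    intro b hb
    obtain ⟨r, hrd⟩ : ∃ r : ℝ, r = b ^ (1 / D) := ⟨_, rfl⟩
    have hr : 0 < r := by rw [hrd]; positivity
    have hrD : r ^ D = b := by
      rw [hrd, ← Real.rpow_mul hb.le]
      rw [one_div_mul_cancel hD.ne', Real.rpow_one]
    have hrc : (r : ℂ) ≠ 0 := by exact_mod_cast hr.ne'
    have hnr : ‖(r : ℂ)‖ = r := by rw [Complex.norm_real, Real.norm_of_nonneg hr.le]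
    have hU2 : ∀ z, scl C.w (r : ℂ) z ∈ C.U ↔ z ∈ C.U := by
      intro z
      constructor
      · intro h
        have h2 := hC.sclU ((r : ℂ)⁻¹) (inv_ne_zero hrc) _ h
        have h3 : scl C.w ((r : ℂ)⁻¹) (scl C.w (r : ℂ) z) = z := by
          ext j
          simp only [scl]
          rw [← mul_assoc, ← mul_pow, inv_mul_cancel₀ hrc, one_pow, one_mul]
        rwa [h3] at h2
      · exact hC.sclU _ hrc z
    have hJg : Measurable fun z : Fin C.m → ℂ => ENNReal.ofReal (‖ev C.J z‖ ^ 2) * g z :=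
      hJm.mul hg
    rw [hmass b, hmass 1, sca_lint C.w hr _ (hJg.indicator (hS b)),
      ← lintegral_const_mul' _ _ ENNReal.ofReal_ne_top, ← lintegral_const_mul' _ _
        ENNReal.ofReal_ne_top]
    refine lintegral_congr fun z => ?_
    by_cases hz : z ∈ C.U
    · obtain ⟨-, h2⟩ := hh z hz
      obtain ⟨h3, h4⟩ := h2 (r : ℂ) hrc
      rw [hnr, hrD] at h3
      rw [hnr] at h4
      by_cases hz1 : ψ z < 1
      · have hz2 : scl C.w (r : ℂ) z ∈ {z | z ∈ C.U ∧ ψ z < b} := by
          refine ⟨(hU2 z).2 hz, ?_⟩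
          rw [h3]
          nlinarith
        have hz3 : z ∈ {z | z ∈ C.U ∧ ψ z < 1} := ⟨hz, hz1⟩
        rw [indicator_of_mem hz2, indicator_of_mem hz3, h4, hC.Jhom, norm_mul, norm_pow, hnr,
          mul_pow, ENNReal.ofReal_mul (by positivity)]
        have key : ENNReal.ofReal (r ^ (2 * ∑ j, C.w j)) * ENNReal.ofReal ((r ^ C.jd) ^ 2) *
            ENNReal.ofReal (r ^ e) = ENNReal.ofReal (b ^ a) := by
          rw [← ENNReal.ofReal_mul (by positivity), ← ENNReal.ofReal_mul (by positivity)]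
          congr 1
          rw [← pow_mul, ← pow_add, ← Real.rpow_natCast, ← Real.rpow_add hr, ← hrD,
            ← Real.rpow_mul hr.le, had]
          congr 1
          have h5 : 2 * ∑ j, C.w j + C.jd * 2 = C.m := by
            have := hC.deg
            have := hC.hm
            omega
          rw [h5]
          field_simp
        rw [← key]
        ring
      · have hz2 : scl C.w (r : ℂ) z ∉ {z | z ∈ C.U ∧ ψ z < b} := by
          rintro ⟨-, h5⟩
          rw [h3] at h5
          apply hz1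
          by_contra h6
          push Not at h6
          nlinarith
        have hz3 : z ∉ {z | z ∈ C.U ∧ ψ z < 1} := fun h => hz1 h.2
        rw [indicator_of_notMem hz2, indicator_of_notMem hz3, mul_zero, mul_zero]
    · have hz2 : scl C.w (r : ℂ) z ∉ {z | z ∈ C.U ∧ ψ z < b} := fun h => hz ((hU2 z).1 h.1)
      have hz3 : z ∉ {z | z ∈ C.U ∧ ψ z < 1} := fun h => hz h.1
      rw [indicator_of_notMem hz2, indicator_of_notMem hz3, mul_zero, mul_zero]
  -- the two measures
  obtain ⟨κ, hκ⟩ : ∃ κ : Measure (Fin C.m → ℂ), κ = (C.nu.restrict C.U).withDensity g := ⟨_, rfl⟩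
  obtain ⟨M, hM⟩ : ∃ M : ENNReal, M = ∫⁻ z in {z | z ∈ C.U ∧ ψ z < 1}, g z ∂C.nu := ⟨_, rfl⟩
  have hMtop : M ≠ ⊤ := by rw [hM]; exact hfin
  have hdm : Measurable fun s : ℝ => ENNReal.ofReal (a * s ^ (a - 1)) := by fun_prop
  obtain ⟨ν₂, hν₂⟩ : ∃ ν₂ : Measure ℝ, ν₂ = M • (volume.restrict (Ioi (0 : ℝ))).withDensity
    fun s => ENNReal.ofReal (a * s ^ (a - 1)) := ⟨_, rfl⟩
  have hκb : ∀ b : ℝ, Measure.map ψ κ (Iio b) = ∫⁻ z in {z | z ∈ C.U ∧ ψ z < b}, g z ∂C.nu := by
    intro b
    rw [Measure.map_apply hψ measurableSet_Iio, hκ,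
      withDensity_apply _ (hψ measurableSet_Iio), Measure.restrict_restrict (hψ measurableSet_Iio)]
    congr 2
    ext z
    simp only [mem_inter_iff, mem_preimage, mem_Iio, mem_ofPred_eq]
    exact and_comm
  have hκ2 : ∀ b : ℝ, Measure.map ψ κ (Iio b) = ν₂ (Iio b) ∧ ν₂ (Iio b) ≠ ⊤ := by
    intro b
    rcases le_or_gt b 0 with hb | hb
    · have h1 : Measure.map ψ κ (Iio b) = 0 := by
        rw [hκb]
        have : {z | z ∈ C.U ∧ ψ z < b} = ∅ := by
          ext z
          simp only [mem_ofPred_eq, mem_empty_iff_false, iff_false, not_and, not_lt]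
          intro hz
          exact hb.trans (hh z hz).1.le
        rw [this]
        simp
      have h2 : ν₂ (Iio b) = 0 := by
        rw [hν₂, Measure.smul_apply, withDensity_apply _ measurableSet_Iio,
          Measure.restrict_restrict measurableSet_Iio]
        have : Iio b ∩ Ioi (0 : ℝ) = ∅ := by
          ext s
          simp only [mem_inter_iff, mem_Iio, mem_Ioi, mem_empty_iff_false, iff_false, not_and,
            not_lt]
          intro h
          linarith
        rw [this]
        simp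
      rw [h1, h2]
      exact ⟨rfl, ENNReal.zero_ne_top⟩
    · have h2 : ν₂ (Iio b) = ENNReal.ofReal (b ^ a) * M := by
        rw [hν₂, Measure.smul_apply, withDensity_apply _ measurableSet_Iio,
          Measure.restrict_restrict measurableSet_Iio]
        have : Iio b ∩ Ioi (0 : ℝ) = Ioo 0 b := by
          ext s
          simp only [mem_inter_iff, mem_Iio, mem_Ioi, mem_Ioo]
          exact and_comm
        rw [this, rpow_lint ha hb, smul_eq_mul, mul_comm]
      rw [hκb, hsc b hb, h2, ← hM]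
      exact ⟨rfl, ENNReal.mul_ne_top ENNReal.ofReal_ne_top hMtop⟩
  have hico : ∀ (μ : Measure ℝ), (∀ b, μ (Iio b) ≠ ⊤) → ∀ x y : ℝ, x < y →
      μ (Ico x y) = μ (Iio y) - μ (Iio x) := by
    intro μ hμ x y hxy
    have : Ico x y = Iio y \ Iio x := by
      ext s
      simp only [mem_Ico, Set.mem_sdiff, mem_Iio, not_lt]
      exact and_comm
    rw [this, measure_sdiff (Iio_subset_Iio hxy.le) measurableSet_Iio.nullMeasurableSet (hμ x)]
  have hfin1 : ∀ b, Measure.map ψ κ (Iio b) ≠ ⊤ := fun b => by rw [(hκ2 b).1]; exact (hκ2 b).2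
  have heq : Measure.map ψ κ = ν₂ := by
    refine Measure.ext_of_Ico' _ _ ?_ ?_
    · intro x y hxy
      exact ne_top_of_le_ne_top (hfin1 y) (measure_mono fun s hs => hs.2)
    · intro x y hxy
      rw [hico _ hfin1 x y hxy, hico _ (fun b => (hκ2 b).2) x y hxy, (hκ2 x).1, (hκ2 y).1]
  have hleft : ∫⁻ z in C.U, Φ (ψ z) * g z ∂C.nu = ∫⁻ s, Φ s ∂(Measure.map ψ κ) := by
    have hc : Measurable fun z => Φ (ψ z) := hΦ.comp hψ
    rw [lintegral_map hΦ hψ, hκ, lintegral_withDensity_eq_lintegral_mul _ hg hc]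
    refine lintegral_congr fun z => ?_
    simp only [Pi.mul_apply]
    exact mul_comm _ _
  rw [hleft, heq, hν₂, lintegral_smul_measure, lintegral_withDensity_eq_lintegral_mul _ hdm hΦ,
    smul_eq_mul, ← hM, ← had, mul_comm]
  congr 1
  refine lintegral_congr fun s => ?_
  simp only [Pi.mul_apply]
  exact mul_comm _ _

end Pool.Agent.Helper29.KP
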