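import Pool.Agent.Helper20.KP.StH
import Pool.Agent.Helper16.KP.M_NUL

/-!
Project KP, module HDN (density).
-/

set_option autoImplicit false

namespace Pool.Agent.Helper29.KP

open MeasureTheory Filter Pool.Agent.Helper52.KP Pool.Agent.Helper20.KP
open scoped Topology

/-- derivative of the value of a polynomial -/
private theorem hdn_fd {m : ℕ} (P : MvPolynomial (Fin m) ℂ) (z : Fin m → ℂ) :
    HasFDerivAt (fun x : Fin m → ℂ => ev P x)
      (∑ k, ev (MvPolynomial.pderiv k P) z •
        (ContinuousLinearMap.proj k : (Fin m → ℂ) →L[ℂ] ℂ)) z := by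
  induction P using MvPolynomial.induction_on with
  | C a =>
    have h : (fun x : Fin m → ℂ => ev (MvPolynomial.C a) x) = fun _ => a := by
      funext x; simp [ev]
    rw [h]
    have h0 : (∑ k, ev (MvPolynomial.pderiv k (MvPolynomial.C a)) z •
        (ContinuousLinearMap.proj k : (Fin m → ℂ) →L[ℂ] ℂ)) = 0 := by
      apply Finset.sum_eq_zero
      intro k _
      have hk : ev (MvPolynomial.pderiv k (MvPolynomial.C a)) z = 0 := by simp [ev]
      rw [hk]
      exact zero_smul ℂ (ContinuousLinearMap.proj k : (Fin m → ℂ) →L[ℂ] ℂ)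
    rw [h0]
    exact hasFDerivAt_const a z
  | add p q hp hq =>
    have h : (fun x : Fin m → ℂ => ev (p + q) x) = fun x => ev p x + ev q x := by
      funext x; simp [ev]
    rw [h]
    refine (hp.add hq).congr_fderiv ?_
    rw [← Finset.sum_add_distrib]
    apply Finset.sum_congr rfl
    intro k _
    have hk : ev (MvPolynomial.pderiv k (p + q)) z =
        ev (MvPolynomial.pderiv k p) z + ev (MvPolynomial.pderiv k q) z := by simp [ev]
    rw [hk]
    exact (add_smul _ _ _).symm
  | mul_X p i hp =>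
    have h : (fun x : Fin m → ℂ => ev (p * MvPolynomial.X i) x) = fun x => ev p x * x i := by
      funext x; simp [ev]
    rw [h]
    have hi : HasFDerivAt (fun x : Fin m → ℂ => x i)
      (ContinuousLinearMap.proj i : (Fin m → ℂ) →L[ℂ] ℂ) z := hasFDerivAt_apply i z
    refine (hp.mul hi).congr_fderiv ?_
    ext v
    simp only [ev, Derivation.leibniz, MvPolynomial.pderiv_X, smul_eq_mul, map_add, map_mul,
      MvPolynomial.eval_X, add_apply, smul_apply,
      sum_apply, ContinuousLinearMap.proj_apply]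
    simp only [add_mul, Finset.sum_add_distrib, Finset.mul_sum]
    congr 1
    · rw [Finset.sum_eq_single i]
      · simp
      · intro j _ hj
        simp [Pi.single_apply, hj]
      · intro hi'
        exact absurd (Finset.mem_univ i) hi'
    · apply Finset.sum_congr rfl
      intro k _
      ring

private theorem hdn_ev (D : OD) (Y : D.LM) (i : Fin D.m) (z : Fin D.m → ℂ) :
    ev (D.yp Y i) z = Y (D.ph z) i := by
  have h1 := LinearMap.pi_apply_eq_sum_univ Y (D.ph z)
  rw [h1, Finset.sum_apply]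
  unfold OD.yp
  simp only [ev, map_sum, map_mul, MvPolynomial.eval_C]
  refine Finset.sum_congr rfl fun j _ => ?_
  have h2 : (Pi.single j 1 : Fin D.N → ℂ) = fun k => if j = k then 1 else 0 := by
    funext k
    simp [Pi.single_apply, eq_comm]
  rw [h2, Pi.smul_apply, smul_eq_mul, mul_comm]
  rfl

theorem hHDN (hHAL : StHAL) : StHDN := by
  intro D hD Y hY
  have hphc : Continuous D.ph := continuous_pi fun i => MvPolynomial.continuous_eval _
  have hphd : ∀ z, DifferentiableAt ℂ D.ph z := fun z =>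
    differentiableAt_pi.2 fun i => (hdn_fd (D.Φ i) z).differentiableAt
  have hjac : jac (D.yp Y) ≠ 0 := by
    intro h0
    obtain ⟨z, hz, hinj⟩ := hY.rk
    obtain ⟨M, hM⟩ : ∃ M : Matrix (Fin D.m) (Fin D.m) ℂ,
        M = Matrix.of fun i j => ev (MvPolynomial.pderiv j (D.yp Y i)) z := ⟨_, rfl⟩
    have hdet : M.det = 0 := by
      have h1 : ev (jac (D.yp Y)) z = 0 := by rw [h0]; simp [ev]
      unfold jac ev at h1
      rw [RingHom.map_det] at h1
      rw [← h1, hM]
      rfl
    obtain ⟨v, hv, hMv⟩ := Matrix.exists_mulVec_eq_zero_iff.2 hdet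
    apply hv
    apply hinj
    simp only [map_zero]
    -- derivative
    have hd1 : HasFDerivAt (fun z => Y (D.ph z))
        ((LinearMap.toContinuousLinearMap Y).comp (fderiv ℂ D.ph z)) z :=
      (LinearMap.toContinuousLinearMap Y).hasFDerivAt.comp z (hphd z).hasFDerivAt
    funext i
    have hd2 : HasFDerivAt (fun z => Y (D.ph z) i)
        ((ContinuousLinearMap.proj i : (Fin D.m → ℂ) →L[ℂ] ℂ).comp
          ((LinearMap.toContinuousLinearMap Y).comp (fderiv ℂ D.ph z))) z :=
      (ContinuousLinearMap.proj i : (Fin D.m → ℂ) →L[ℂ] ℂ).hasFDerivAt.comp z hd1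
    have hd3 := hdn_fd (D.yp Y i) z
    have he : (fun x => ev (D.yp Y i) x) = fun z => Y (D.ph z) i := by
      funext x
      exact hdn_ev D Y i x
    rw [he] at hd3
    have h4 := hd2.unique hd3
    have h5 := congrArg (fun L : (Fin D.m → ℂ) →L[ℂ] ℂ => L v) h4
    have h6 : Y (fderiv ℂ D.ph z v) i = (M.mulVec v) i := by
      have h7 : Y (fderiv ℂ D.ph z v) i = ∑ k, ev (MvPolynomial.pderiv k (D.yp Y i)) z * v k := by
        simpa using h5
      rw [h7, hM]
      rfl
    rw [h6, hMv]
  refine ⟨hdn_ev D Y, hjac, ?_⟩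
  intro Dc hDc
  obtain ⟨P, hP⟩ : ∃ P, P = MvPolynomial.aeval (D.yp Y) Dc := ⟨_, rfl⟩
  have hP0 : P ≠ 0 := by
    rw [hP]
    exact (hHAL D.m (D.yp Y) hjac).1 Dc hDc
  have hPe : ∀ z, ev P z = ev Dc (Y (D.ph z)) := by
    intro z
    have h0 : (MvPolynomial.eval z).comp
        (MvPolynomial.aeval (D.yp Y) : MvPolynomial (Fin D.m) ℂ →ₐ[ℂ] _).toRingHom =
        MvPolynomial.eval (fun i => MvPolynomial.eval z (D.yp Y i)) :=
      MvPolynomial.ringHom_ext (by simp) (by simp)
    have h1 : ev P z = ev Dc (fun i => ev (D.yp Y i) z) := by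
      rw [hP]
      exact RingHom.congr_fun h0 Dc
    rw [h1]
    congr 1
    funext i
    exact hdn_ev D Y i z
  have hQ0 : D.Δ * P ≠ 0 := mul_ne_zero hD.Δ0 hP0
  have hden : Dense {z : Fin D.m → ℂ | ev (D.Δ * P) z ≠ 0} := by
    have h1 : ∀ᵐ z : Fin D.m → ℂ, ev (D.Δ * P) z ≠ 0 := by
      rw [ae_iff]
      have h2 := Pool.Agent.Helper16.KP.hNUL D.m (D.Δ * P) hQ0
      simpa only [ne_eq, not_not] using h2
    exact Measure.dense_of_ae h1
  refine hD.dense.trans (closure_minimal ?_ isClosed_closure)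
  rintro _ ⟨z, hz, rfl⟩
  refine map_mem_closure hphc (hden z) ?_
  intro z' hz'
  have h1 : ev D.Δ z' * ev P z' ≠ 0 := by
    have : ev (D.Δ * P) z' = ev D.Δ z' * ev P z' := by simp [ev]
    rw [← this]
    exact hz'
  have h2 : ev D.Δ z' ≠ 0 := left_ne_zero_of_mul h1
  have h3 : ev P z' ≠ 0 := right_ne_zero_of_mul h1
  refine ⟨hD.phO z' h2, ?_⟩
  rw [← hPe]
  exact h3

end Pool.Agent.Helper29.KP
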