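import Pool.Agent.Helper93.KP.St

/-!
# Project KP, module C10P : the vector sieve lower bound for almost all `n`
-/

set_option autoImplicit false

namespace Pool.Agent.Helper29.KP

open Finset Filter Topology
open Pool.Agent.Helper93.KP
open Pool.Agent.Helper15.AB (ee Kl StDB StMT)
open Pool.Agent.Helper9.TW (iv bx Rg cc Dec WF bm ms ind UpP LoP gm Ax GUp GLo Qs fm ej
  StMER StPOS StC9)

private theorem growth (κ₀ κ C c1 : ℝ) (hκ : 0 < κ) (hC : 0 < C) (hc : 0 < c1) :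
    ∀ᶠ a : ℕ in atTop, C * (a : ℝ) ^ (κ₀ - κ) ≤ c1 * (a : ℝ) ^ κ₀ / Real.log a ^ 3 := by
  have h1 : (fun x : ℝ => Real.log x ^ (3 : ℝ)) =o[atTop] fun x : ℝ => x ^ κ :=
    isLittleO_log_rpow_rpow_atTop 3 hκ
  have h2 := (h1.bound (show 0 < c1 / C by positivity))
  have h3 := tendsto_natCast_atTop_atTop (R := ℝ) |>.eventually h2
  filter_upwards [h3, eventually_ge_atTop 3] with a ha ha3
  have ha0 : (0 : ℝ) < a := by
    have : 0 < a := by omega
    exact_mod_cast this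
  have hlog : 0 < Real.log a := Real.log_pos (by
    have : 1 < a := by omega
    exact_mod_cast this)
  have e1 : Real.log a ^ (3 : ℝ) = Real.log a ^ 3 := by
    rw [← Real.rpow_natCast]; norm_num
  rw [e1, Real.norm_of_nonneg (by positivity), Real.norm_of_nonneg (by positivity)] at ha
  rw [le_div_iff₀ (by positivity), Real.rpow_sub ha0]
  have hp : 0 < (a : ℝ) ^ κ := by positivity
  have hp0 : 0 < (a : ℝ) ^ κ₀ := by positivity
  calc C * ((a : ℝ) ^ κ₀ / (a : ℝ) ^ κ) * Real.log a ^ 3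
      ≤ C * ((a : ℝ) ^ κ₀ / (a : ℝ) ^ κ) * (c1 / C * (a : ℝ) ^ κ) := by gcongr
    _ = c1 * (a : ℝ) ^ κ₀ := by field_simp

private theorem grow_const (e C : ℝ) (he : 0 < e) :
    ∀ᶠ a : ℕ in atTop, C ≤ (a : ℝ) ^ e :=
  ((tendsto_rpow_atTop he).comp tendsto_natCast_atTop_atTop).eventually (eventually_ge_atTop C)

private theorem main_ineq (V t0 t1 μm μp S0 ε δ m p s : ℝ) (hV0 : 0 ≤ V) (T1 : V ≤ t0)
    (T2 : t0 ≤ (1 + 1 / 1000) * V) (T3 : (1 - 1 / 1000) * V ≤ t1) (T4 : t1 ≤ V) (hμm : 0 ≤ μm)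
    (hμp : 0 ≤ μp) (hS0 : 0 ≤ S0) (hε0 : 0 < ε) (hε : ε = δ / 6)
    (hδ : δ = μm - 2 / 1000 * μp - 1001 / 1000 * S0) (lm : μm - ε ≤ m) (lp : p ≤ μp + ε)
    (lS : s ≤ S0 + ε) : V * (δ / 2) ≤ t0 * m - (t0 - t1) * p - t0 * s := by
  have hTH : 0 ≤ t0 := hV0.trans T1
  have hd : 0 ≤ t0 - t1 := by linarith
  have hd2 : t0 - t1 ≤ 2 / 1000 * V := by linarith
  have m1 : V * μm - 1001 / 1000 * V * ε ≤ t0 * m := by
    have h1 : t0 * (μm - ε) ≤ t0 * m := mul_le_mul_of_nonneg_left lm hTH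
    have h2 : V * μm ≤ t0 * μm := mul_le_mul_of_nonneg_right T1 hμm
    have h3 : t0 * ε ≤ 1001 / 1000 * V * ε :=
      mul_le_mul_of_nonneg_right (by linarith) hε0.le
    linarith
  have m2 : (t0 - t1) * p ≤ 2 / 1000 * V * (μp + ε) := by
    have h1 : (t0 - t1) * p ≤ (t0 - t1) * (μp + ε) := mul_le_mul_of_nonneg_left lp hd
    have h2 : (t0 - t1) * (μp + ε) ≤ 2 / 1000 * V * (μp + ε) :=
      mul_le_mul_of_nonneg_right hd2 (by positivity)
    linarith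
  have m3 : t0 * s ≤ 1001 / 1000 * V * (S0 + ε) := by
    have h1 := mul_le_mul_of_nonneg_left lS hTH
    have h2 : t0 * (S0 + ε) ≤ 1001 / 1000 * V * (S0 + ε) :=
      mul_le_mul_of_nonneg_right (by linarith) (by positivity)
    linarith
  have m4 : V * (δ / 2) = V * δ - 3 * (V * ε) := by rw [hε]; ring
  have m5 : V * δ = V * μm - 2 / 1000 * (V * μp) - 1001 / 1000 * (V * S0) := by
    rw [hδ]; ring
  have m6 : 0 ≤ V * ε := by positivity
  have m7 : 2 / 1000 * V * (μp + ε) = 2 / 1000 * (V * μp) + 2 / 1000 * (V * ε) := by ring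
  have m8 : 1001 / 1000 * V * (S0 + ε) = 1001 / 1000 * (V * S0) + 1001 / 1000 * (V * ε) := by
    ring
  have m9 : 1001 / 1000 * V * ε = 1001 / 1000 * (V * ε) := by ring
  linarith

private theorem combine (K T0 T1 S0 S1 r R m p s A B C D σ bm bp bs : ℝ)
    (hA : -R ≤ A - S0 * m) (hB : -R ≤ B - S1 * p) (hC : C - S0 * p ≤ R)
    (hD : D ≤ S0 * s + σ * R) (h0 : |S0 - K * T0| ≤ r) (h1 : |S1 - K * T1| ≤ r)
    (hm : |m| ≤ bm) (hp : |p| ≤ bp) (hs : |s| ≤ bs) :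
    K * (T0 * m - (T0 - T1) * p - T0 * s) - (3 + σ) * R - r * (bm + 2 * bp + bs) ≤
      A + B - C - D := by
  have hr : 0 ≤ r := (abs_nonneg _).trans h0
  have e0 : |(S0 - K * T0) * (m - p - s)| ≤ r * (bm + bp + bs) := by
    rw [abs_mul]
    have h2 : |m - p - s| ≤ bm + bp + bs := by
      have a1 := abs_le.mp hm
      have a2 := abs_le.mp hp
      have a3 := abs_le.mp hs
      rw [abs_le]
      constructor <;> linarith
    exact mul_le_mul h0 h2 (abs_nonneg _) hr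
  have e1 : |(S1 - K * T1) * p| ≤ r * bp := by
    rw [abs_mul]
    exact mul_le_mul h1 hp (abs_nonneg _) hr
  have f0 := (abs_le.mp e0).1
  have f1 := (abs_le.mp e1).1
  have g : A + B - C - D ≥ S0 * (m - p - s) + S1 * p - (3 + σ) * R := by
    have : S0 * (m - p - s) = S0 * m - S0 * p - S0 * s := by ring
    rw [this]
    linarith
  have g2 : S0 * (m - p - s) + S1 * p = K * (T0 * m - (T0 - T1) * p - T0 * s) +
      (S0 - K * T0) * (m - p - s) + (S1 - K * T1) * p := by ring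
  have g3 : r * (bm + 2 * bp + bs) = r * (bm + bp + bs) + r * bp := by ring
  linarith

private theorem abs_near (x y ε : ℝ) (hy : 0 ≤ y) (h1 : y - ε ≤ x) (h2 : x ≤ y + ε) :
    |x| ≤ y + ε := by
  rw [abs_le]
  constructor <;> linarith

private theorem vk_pos (a n j K : ℕ) (hn : n ∈ NN a) (hK : 30 * K ≤ a) (hj : j ∈ Icc 1 K) :
    1 ≤ vk n (30 * j) := by
  obtain ⟨hj1, hj2⟩ := Finset.mem_Icc.mp hj
  have hn1 : a ^ 2 < n := (Finset.mem_Ioc.mp hn).1
  have ha : 1 ≤ a := by omega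
  have h1 : a ≤ a ^ 2 := by nlinarith
  have h2 : 30 * j < n := by omega
  unfold vk
  have h3 : 2 ≤ 30 * j * (n - 30 * j) := by
    have h4 : 1 ≤ n - 30 * j := by omega
    calc 2 ≤ 30 * j := by omega
      _ = 30 * j * 1 := by ring
      _ ≤ 30 * j * (n - 30 * j) := Nat.mul_le_mul_left _ h4
  omega

private theorem Jn_sub (z : ℝ) (K n : ℕ) : Jn z K n ⊆ Icc 1 K := by
  classical
  unfold Jn
  exact Finset.filter_subset _ _

theorem hC10P (hFS : StFSP) (hA : StCAP) (hL : StLOC) (hV : StVLP) (h8 : StC8P) (h9 : StC9)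
    (hM : StMER) (hPO : StPOS) : StC10P := by
  intro κ₀ hκ₀ hκ₀1
  obtain ⟨f, -, h8⟩ := h8
  obtain ⟨B₀, hL⟩ := hL f
  obtain ⟨θ₁, hθ₁, hA⟩ := hA f κ₀ hκ₀ hκ₀1
  have hB0 : (0 : ℝ) ≤ (B₀ : ℝ) := Nat.cast_nonneg _
  obtain ⟨u, j0, hu, hj0, hj1, hθ, μm, μp, μ, hLo, hUp, hUj, hpos⟩ :=
    hFS (min θ₁ (min (1 / 100) (κ₀ / (4 * ((B₀ : ℝ) + 1)))))
      (lt_min hθ₁ (lt_min (by norm_num) (by positivity)))
      ((min_le_right _ _).trans (min_le_left _ _))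
  obtain ⟨κ, hκ, hA1, hA2⟩ := hA u j0 hu hj0 hj1 (hθ.trans (min_le_left _ _))
  obtain ⟨c0, hc0, hV⟩ := hV
  have hu' : (0 : ℝ) < u := by
    have : 0 < u := by omega
    exact_mod_cast this
  have hω : (0 : ℝ) < 1 / (20000 * (u : ℝ)) := by positivity
  have hμp : 0 ≤ μp := by
    refine hPO _ _ _ _ _ hω ?_ hUp
    push_cast
    rw [mul_one_div, div_le_iff₀ (by positivity)]
    linarith
  have hμj : ∀ j ∈ Ico (5499 * u) (19679 * u), 0 ≤ μ j := by
    intro j hj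
    refine hPO _ _ _ _ _ hω ?_ (hUj j hj)
    rw [mul_one_div, div_le_iff₀ (by positivity)]
    have : ((21996 * u - (j + 1) : ℕ) : ℝ) ≤ ((21996 * u : ℕ) : ℝ) := by
      exact_mod_cast Nat.sub_le _ _
    push_cast at this
    linarith
  obtain ⟨Tm, Bm, Lm, wm, dm, tm⟩ := hLo
  obtain ⟨Tp, Bp, Lp, wp, dp, tp⟩ := hUp
  unfold UpP at hUj
  choose! Tj Bj Lj wj dj tj using hUj
  set ω : ℝ := 1 / (20000 * (u : ℝ)) with hωd
  set θ : ℝ := (j0 : ℝ) * ω with hθd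
  have hθ0 : 0 < θ := by
    rw [hθd]
    have : (0 : ℝ) < j0 := by
      have : 0 < j0 := by omega
      exact_mod_cast this
    positivity
  have hθ1 : θ ≤ 1 :=
    hθ.trans ((min_le_right _ _).trans ((min_le_left _ _).trans (by norm_num)))
  have hθB : θ * ((2 * B₀ : ℕ) : ℝ) ≤ κ₀ - κ₀ / 2 := by
    have h1 : θ ≤ κ₀ / (4 * ((B₀ : ℝ) + 1)) :=
      hθ.trans ((min_le_right _ _).trans (min_le_right _ _))
    rw [le_div_iff₀ (by positivity)] at h1
    push_cast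
    nlinarith
  set c : ℕ → ℝ := fun j => 10340 / 10000 * (1 - (j : ℝ) / (19679 * u)) with hc
  have hcn : ∀ j ∈ Ico (5499 * u) (19679 * u), 0 ≤ c j := by
    intro j hj
    have h1 : (j : ℝ) ≤ 19679 * u := by
      have := (Finset.mem_Ico.mp hj).2
      have h2 : j ≤ 19679 * u := this.le
      exact_mod_cast h2
    have h2 : (j : ℝ) / (19679 * u) ≤ 1 := by
      rw [div_le_iff₀ (by positivity)]; linarith
    rw [hc]
    simp only
    have : 0 ≤ 1 - (j : ℝ) / (19679 * u) := by linarith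
    positivity
  set S0 : ℝ := ∑ j ∈ Ico (5499 * u) (19679 * u), c j * (gm j * μ j) with hS0
  have hgm : ∀ j ∈ Ico (5499 * u) (19679 * u), 0 ≤ gm j := by
    intro j hj
    have h1 : 1 ≤ j := by
      have := (Finset.mem_Ico.mp hj).1
      omega
    have h2 : (0 : ℝ) < j := by
      have : 0 < j := by omega
      exact_mod_cast this
    unfold gm
    apply Real.log_nonneg
    rw [le_div_iff₀ h2]
    linarith
  have hS0n : 0 ≤ S0 := Finset.sum_nonneg fun j hj =>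
    mul_nonneg (hcn j hj) (mul_nonneg (hgm j hj) (hμj j hj))
  have hS0e : (10340 / 10000 : ℝ) * ∑ j ∈ Ico (5499 * u) (19679 * u),
      gm j * (1 - (j : ℝ) / (19679 * u)) * μ j = S0 := by
    rw [hS0, Finset.mul_sum]
    refine Finset.sum_congr rfl fun j _ => ?_
    rw [hc]
    ring
  set δ : ℝ := μm - 2 / 1000 * μp - 1001 / 1000 * S0 with hδ
  have hδ0 : 0 < δ := by
    have : (1001 / 1000 : ℝ) * (10340 / 10000) * ∑ j ∈ Ico (5499 * u) (19679 * u),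
      gm j * (1 - (j : ℝ) / (19679 * u)) * μ j = 1001 / 1000 * S0 := by
      rw [← hS0e]; ring
    rw [this] at hpos
    exact hpos
  have hμm : 0 ≤ μm := by
    have : 0 ≤ 2 / 1000 * μp + 1001 / 1000 * S0 := by positivity
    linarith
  -- limits
  have tS : Tendsto (fun a : ℕ => ∑ j ∈ Ico (5499 * u) (19679 * u),
      c j * ((∑ p ∈ bx a ω j, (1 : ℝ) / p) * ms a (Lj j a))) atTop (𝓝 S0) := by
    refine tendsto_finsetSum _ fun j hj => ?_
    refine Tendsto.const_mul _ ?_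
    exact (hM ω j hω (by have := (Finset.mem_Ico.mp hj).1; omega)).mul (tj j hj)
  set ε : ℝ := δ / 6 with hε
  have hε0 : 0 < ε := by positivity
  set σ : ℝ := ∑ j ∈ Ico (5499 * u) (19679 * u), c j with hσ
  have hσ0 : 0 ≤ σ := Finset.sum_nonneg hcn
  set Cr : ℝ := (μm + ε) + 2 * (μp + ε) + (S0 + ε) with hCr
  have hCr0 : 0 < Cr := by positivity
  set c1 : ℝ := c0 * δ / 4 with hc1
  have hc10 : 0 < c1 := by positivity
  set Nc : ℝ := 3 + ((Ico (5499 * u) (19679 * u)).card : ℝ) with hNc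
  have hEv : ∀ᶠ a : ℕ in atTop, ∃ E : Finset ℕ, (E.card : ℝ) ≤ (a : ℝ) ^ (2 - κ / 2) ∧
      ∀ n ∈ NN a, n ∉ E → c1 / 2 * (a : ℝ) ^ κ₀ / Real.log a ^ 3 ≤
    ∑ j ∈ Jn ((a : ℝ) ^ θ) ⌊(a : ℝ) ^ κ₀⌋₊ n,
      qk a θ n (30 * j) * ind a ω j0 (5499 * u) (vk n (30 * j)) *
      (1 - ∑ i ∈ Ico (5499 * u) (19679 * u), 10340 / 10000 * (1 - (i : ℝ) / (19679 * u)) *
        (ej a ω i (vk n (30 * j)) : ℝ)) := by
    have hAj : ∀ᶠ a : ℕ in atTop, ∀ j' ∈ Ico (5499 * u) (19679 * u), ∀ i : ℕ,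
      ∃ E : Finset ℕ, (E.card : ℝ) ≤ (a : ℝ) ^ (2 - κ) ∧ ∀ n ∈ NN a, n ∉ E →
      |∑ j ∈ Jn ((a : ℝ) ^ θ) ⌊(a : ℝ) ^ κ₀⌋₊ n,
        tk i a θ f n (30 * j) *
          ((ej a ω j' (vk n (30 * j)) : ℝ) * ∑ q ∈ (vk n (30 * j)).divisors, Lj j' a q) -
        (∑ j ∈ Icc 1 ⌊(a : ℝ) ^ κ₀⌋₊, tk i a θ f n (30 * j)) *
          ((∑ p ∈ bx a ω j', (1 : ℝ) / p) * ms a (Lj j' a))| ≤ (a : ℝ) ^ (κ₀ - κ) := by
      rw [Filter.eventually_all_finset]
      intro j hj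
      exact hA2 (Tj j) (Bj j) (Lj j) j (Finset.mem_Ico.mp hj).1 (Finset.mem_Ico.mp hj).2
        (wj j hj)
    have hdj : ∀ᶠ a : ℕ in atTop, ∀ j ∈ Ico (5499 * u) (19679 * u), ∀ n : ℕ, 1 ≤ n →
        ind a ω j0 (5499 * u) n ≤ ∑ q ∈ n.divisors, Lj j a q := by
      rw [Filter.eventually_all_finset]
      intro j hj
      exact dj j hj
    filter_upwards [hA1 Tm Bm Lm wm, hA1 Tp Bp Lp wp, hAj, dm, dp, hdj,
      tS.eventually (eventually_le_nhds (show S0 < S0 + ε by linarith)),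
      tS.eventually (eventually_ge_nhds (show S0 - ε < S0 by linarith)),
      tm.eventually (eventually_ge_nhds (show μm - ε < μm by linarith)),
      tm.eventually (eventually_le_nhds (show μm < μm + ε by linarith)),
      tp.eventually (eventually_le_nhds (show μp < μp + ε by linarith)),
      tp.eventually (eventually_ge_nhds (show μp - ε < μp by linarith)),
      growth κ₀ κ (3 + σ) (c1 / 4) hκ (by linarith) (by positivity),
      growth κ₀ (κ₀ / 2) Cr (c1 / 4) (by positivity) hCr0 (by positivity),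
      grow_const (κ / 2) Nc (by positivity), grow_const κ₀ 2 hκ₀,
      grow_const (1 - κ₀) 30 (by linarith), eventually_ge_atTop 3]
      with a hm hp hj' dm' dp' dj' lS lS' lm lm' lp lp' hgr1 hgr2 hgrN hgK hg30 ha3
    obtain ⟨Em, hEm1, hEm2⟩ := hm 0
    obtain ⟨E0, hE01, hE02⟩ := hp 0
    obtain ⟨E1, hE11, hE12⟩ := hp 1
    choose! Ej hEj1 hEj2 using fun j hj => hj' j hj 0
    have ha0 : (0 : ℝ) < a := by
      have : 0 < a := by omega
      exact_mod_cast this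
    have ha1 : (1 : ℝ) ≤ a := by
      have : 1 ≤ a := by omega
      exact_mod_cast this
    refine ⟨Em ∪ E0 ∪ E1 ∪ (Ico (5499 * u) (19679 * u)).biUnion Ej, ?_, ?_⟩
    · have hcard : ((Em ∪ E0 ∪ E1 ∪ (Ico (5499 * u) (19679 * u)).biUnion Ej).card : ℝ) ≤
          Nc * (a : ℝ) ^ (2 - κ) := by
        have k1 : (Em ∪ E0 ∪ E1 ∪ (Ico (5499 * u) (19679 * u)).biUnion Ej).card ≤
            Em.card + E0.card + E1.card + ((Ico (5499 * u) (19679 * u)).biUnion Ej).card := by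
          have a1 := Finset.card_union_le (Em ∪ E0 ∪ E1)
            ((Ico (5499 * u) (19679 * u)).biUnion Ej)
          have a2 := Finset.card_union_le (Em ∪ E0) E1
          have a3 := Finset.card_union_le Em E0
          omega
        have k2 : (((Ico (5499 * u) (19679 * u)).biUnion Ej).card : ℝ) ≤
            ((Ico (5499 * u) (19679 * u)).card : ℝ) * (a : ℝ) ^ (2 - κ) := by
          calc (((Ico (5499 * u) (19679 * u)).biUnion Ej).card : ℝ) ≤
              ((∑ j ∈ Ico (5499 * u) (19679 * u), (Ej j).card : ℕ) : ℝ) := by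
                exact_mod_cast Finset.card_biUnion_le
            _ = ∑ j ∈ Ico (5499 * u) (19679 * u), ((Ej j).card : ℝ) := by push_cast; rfl
            _ ≤ ∑ j ∈ Ico (5499 * u) (19679 * u), (a : ℝ) ^ (2 - κ) :=
                Finset.sum_le_sum fun j hj => hEj1 j hj
            _ = ((Ico (5499 * u) (19679 * u)).card : ℝ) * (a : ℝ) ^ (2 - κ) := by
                rw [Finset.sum_const, nsmul_eq_mul]
        have k3 : ((Em ∪ E0 ∪ E1 ∪ (Ico (5499 * u) (19679 * u)).biUnion Ej).card : ℝ) ≤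
            (Em.card : ℝ) + E0.card + E1.card +
              ((Ico (5499 * u) (19679 * u)).biUnion Ej).card := by
          exact_mod_cast k1
        rw [hNc]
        linarith
      refine hcard.trans ?_
      have h2 : (a : ℝ) ^ (2 - κ / 2) = (a : ℝ) ^ (κ / 2) * (a : ℝ) ^ (2 - κ) := by
        rw [← Real.rpow_add ha0]
        congr 1
        ring
      rw [h2]
      exact mul_le_mul_of_nonneg_right hgrN (by positivity)
    intro n hn hnE
    rw [Finset.mem_union, Finset.mem_union, Finset.mem_union] at hnE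
    push Not at hnE
    obtain ⟨⟨⟨hnm, hn0⟩, hn1⟩, hnj⟩ := hnE
    have hnj' : ∀ j ∈ Ico (5499 * u) (19679 * u), n ∉ Ej j := fun j hj h =>
      hnj (Finset.mem_biUnion.mpr ⟨j, hj, h⟩)
    obtain ⟨hth, T1, T2, T3, T4⟩ := h8 a n θ (by omega) hθ0
    set V : ℝ := ∏ p ∈ Qs a θ, (1 - gn n p) with hVd
    have hVa := hV a n θ (by omega) hθ0 hθ1
    rw [← hVd] at hVa
    have hlog : 0 < Real.log a := Real.log_pos (by
      have : 1 < a := by omega
      exact_mod_cast this)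
    have hV0 : 0 ≤ V := le_trans (by positivity) hVa
    obtain ⟨K, hK⟩ : ∃ K : ℕ, K = ⌊(a : ℝ) ^ κ₀⌋₊ := ⟨_, rfl⟩
    have hKle : (K : ℝ) ≤ (a : ℝ) ^ κ₀ := by
      rw [hK]
      exact Nat.floor_le (by positivity)
    have hKge : (a : ℝ) ^ κ₀ / 2 ≤ (K : ℝ) := by
      have h1 : (a : ℝ) ^ κ₀ < (K : ℝ) + 1 := by
        rw [hK]
        exact Nat.lt_floor_add_one _
      linarith
    have h30 : 30 * K ≤ a := by
      have h1 : (a : ℝ) ^ (1 - κ₀) * (a : ℝ) ^ κ₀ = a := by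
        rw [← Real.rpow_add ha0]
        simp
      have h2 : (30 : ℝ) * K ≤ a := by
        calc (30 : ℝ) * K ≤ (a : ℝ) ^ (1 - κ₀) * (a : ℝ) ^ κ₀ :=
              mul_le_mul hg30 hKle (Nat.cast_nonneg _) (by positivity)
          _ = a := h1
      exact_mod_cast h2
    rw [← hK]
    have em := hEm2 n hn hnm
    have ep0 := hE02 n hn hn0
    have ep1 := hE12 n hn hn1
    rw [← hK] at em ep0 ep1
    obtain ⟨Fs, hFs⟩ : ∃ Fs : Finset ℕ, Fs = Jn ((a : ℝ) ^ θ) K n := ⟨_, rfl⟩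
    rw [← hFs] at em ep0 ep1 ⊢
    have hFsub : ∀ j ∈ Fs, 1 ≤ vk n (30 * j) := by
      intro j hj
      rw [hFs] at hj
      exact vk_pos a n j K hn h30 (Jn_sub _ _ _ hj)
    -- pointwise inequality
    have hpt : ∀ j ∈ Fs,
        tk 0 a θ f n (30 * j) * (∑ q ∈ (vk n (30 * j)).divisors, Lm a q) +
          tk 1 a θ f n (30 * j) * (∑ q ∈ (vk n (30 * j)).divisors, Lp a q) -
          tk 0 a θ f n (30 * j) * (∑ q ∈ (vk n (30 * j)).divisors, Lp a q) -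
          ∑ i ∈ Ico (5499 * u) (19679 * u), c i * (tk 0 a θ f n (30 * j) *
            ((ej a ω i (vk n (30 * j)) : ℝ) * ∑ q ∈ (vk n (30 * j)).divisors, Lj i a q)) ≤
        qk a θ n (30 * j) * ind a ω j0 (5499 * u) (vk n (30 * j)) *
          (1 - ∑ i ∈ Ico (5499 * u) (19679 * u), 10340 / 10000 * (1 - (i : ℝ) / (19679 * u)) *
            (ej a ω i (vk n (30 * j)) : ℝ)) := by
      intro j hj
      have hv := hFsub j hj
      have hi0 : 0 ≤ ind a ω j0 (5499 * u) (vk n (30 * j)) ∧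
          ind a ω j0 (5499 * u) (vk n (30 * j)) ≤ 1 := by
        unfold ind; split_ifs <;> norm_num
      have hq : 0 ≤ qk a θ n (30 * j) ∧ qk a θ n (30 * j) ≤ 1 := by
        unfold qk; split_ifs <;> norm_num
      refine h9 (qk a θ n (30 * j)) (ind a ω j0 (5499 * u) (vk n (30 * j)))
        (tk 0 a θ f n (30 * j)) (tk 1 a θ f n (30 * j))
        (∑ q ∈ (vk n (30 * j)).divisors, Lp a q) (∑ q ∈ (vk n (30 * j)).divisors, Lm a q)
        (Ico (5499 * u) (19679 * u)) (fun i => (ej a ω i (vk n (30 * j)) : ℝ))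
        (fun i => (ej a ω i (vk n (30 * j)) : ℝ) * ∑ q ∈ (vk n (30 * j)).divisors, Lj i a q) c
        hq.1 hq.2 hi0.1 hi0.2 (hth (30 * j)).1 (hth (30 * j)).2 (dm' _ hv) (dp' _ hv)
        (fun i hi => ⟨hcn i hi, Nat.cast_nonneg _⟩) (fun i hi => ?_)
      rw [mul_comm]
      exact mul_le_mul_of_nonneg_left (dj' i hi _ hv) (Nat.cast_nonneg _)
    refine le_trans ?_ (Finset.sum_le_sum hpt)
    rw [Finset.sum_sub_distrib, Finset.sum_sub_distrib, Finset.sum_add_distrib,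
      Finset.sum_comm]
    obtain ⟨sg0, hsg0⟩ : ∃ x : ℝ, x = ∑ j ∈ Icc 1 K, tk 0 a θ f n (30 * j) := ⟨_, rfl⟩
    obtain ⟨sg1, hsg1⟩ : ∃ x : ℝ, x = ∑ j ∈ Icc 1 K, tk 1 a θ f n (30 * j) := ⟨_, rfl⟩
    rw [← hsg0] at em ep0
    rw [← hsg1] at ep1
    have e0 := (abs_le.mp em).1
    have e1 := (abs_le.mp ep1).1
    have e2 := (abs_le.mp ep0).2
    have e3 : ∑ i ∈ Ico (5499 * u) (19679 * u), ∑ j ∈ Fs, c i * (tk 0 a θ f n (30 * j) *
        ((ej a ω i (vk n (30 * j)) : ℝ) * ∑ q ∈ (vk n (30 * j)).divisors, Lj i a q)) ≤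
        sg0 * (∑ i ∈ Ico (5499 * u) (19679 * u),
          c i * ((∑ p ∈ bx a ω i, (1 : ℝ) / p) * ms a (Lj i a))) +
        σ * (a : ℝ) ^ (κ₀ - κ) := by
      rw [hσ, Finset.mul_sum, Finset.sum_mul, ← Finset.sum_add_distrib]
      refine Finset.sum_le_sum fun i hi => ?_
      rw [← Finset.mul_sum]
      have h := hEj2 i hi n hn (hnj' i hi)
      rw [← hK, ← hFs, ← hsg0] at h
      have h' := mul_le_mul_of_nonneg_left (abs_le.mp h).2 (hcn i hi)
      have e4 : c i * (∑ j ∈ Fs, tk 0 a θ f n (30 * j) * ((ej a ω i (vk n (30 * j)) : ℝ) *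
          ∑ q ∈ (vk n (30 * j)).divisors, Lj i a q) - sg0 *
          ((∑ p ∈ bx a ω i, (1 : ℝ) / p) * ms a (Lj i a))) =
          c i * (∑ j ∈ Fs, tk 0 a θ f n (30 * j) * ((ej a ω i (vk n (30 * j)) : ℝ) *
          ∑ q ∈ (vk n (30 * j)).divisors, Lj i a q)) - sg0 *
          (c i * ((∑ p ∈ bx a ω i, (1 : ℝ) / p) * ms a (Lj i a))) := by
        ring
      rw [e4] at h'
      linarith
    have hr0 := hL 0 a n K θ (by omega) hθ0
    have hr1 := hL 1 a n K θ (by omega) hθ0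
    rw [← hsg0] at hr0
    rw [← hsg1] at hr1
    have hrb : ((⌊(a : ℝ) ^ θ⌋₊ : ℕ) : ℝ) ^ (2 * B₀) ≤ (a : ℝ) ^ (κ₀ - κ₀ / 2) := by
      calc ((⌊(a : ℝ) ^ θ⌋₊ : ℕ) : ℝ) ^ (2 * B₀) ≤ ((a : ℝ) ^ θ) ^ (2 * B₀) :=
            pow_le_pow_left₀ (Nat.cast_nonneg _) (Nat.floor_le (by positivity)) _
        _ = (a : ℝ) ^ (θ * ((2 * B₀ : ℕ) : ℝ)) := by
            rw [Real.rpow_mul ha0.le θ ((2 * B₀ : ℕ) : ℝ), Real.rpow_natCast _ (2 * B₀)]
        _ ≤ (a : ℝ) ^ (κ₀ - κ₀ / 2) := Real.rpow_le_rpow_of_exponent_le ha1 hθB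
    have fin := combine (K : ℝ) (TK 0 a θ f n) (TK 1 a θ f n) sg0 sg1
      ((a : ℝ) ^ (κ₀ - κ₀ / 2)) ((a : ℝ) ^ (κ₀ - κ)) _ _ _ _ _ _ _ σ (μm + ε) (μp + ε) (S0 + ε)
      e0 e1 e2 e3 (hr0.trans hrb) (hr1.trans hrb)
      (abs_near _ _ _ hμm lm lm') (abs_near _ _ _ hμp lp' lp) (abs_near _ _ _ hS0n lS' lS)
    refine le_trans ?_ fin
    -- main term
    have main := main_ineq V _ _ μm μp S0 ε δ _ _ _ hV0 T1 T2 T3 T4 hμm hμp hS0n hε0 hε hδ lm lp
      lS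
    have main2 := mul_le_mul_of_nonneg_left main (Nat.cast_nonneg (α := ℝ) K)
    have main3 : c1 * (a : ℝ) ^ κ₀ / Real.log a ^ 3 ≤ (K : ℝ) * (V * (δ / 2)) := by
      calc c1 * (a : ℝ) ^ κ₀ / Real.log a ^ 3 =
            (a : ℝ) ^ κ₀ / 2 * (c0 / Real.log a ^ 3 * (δ / 2)) := by
            rw [hc1]; ring
        _ ≤ (K : ℝ) * (V * (δ / 2)) := by gcongr
    have hx : c1 / 2 * (a : ℝ) ^ κ₀ / Real.log a ^ 3 =
        c1 * (a : ℝ) ^ κ₀ / Real.log a ^ 3 - c1 / 4 * (a : ℝ) ^ κ₀ / Real.log a ^ 3 -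
          c1 / 4 * (a : ℝ) ^ κ₀ / Real.log a ^ 3 := by ring
    rw [hx]
    have hgr2' : (a : ℝ) ^ (κ₀ - κ₀ / 2) * (μm + ε + 2 * (μp + ε) + (S0 + ε)) ≤
        c1 / 4 * (a : ℝ) ^ κ₀ / Real.log a ^ 3 := by
      rw [mul_comm]
      exact hgr2
    linarith
  obtain ⟨a₀, ha₀⟩ := eventually_atTop.mp hEv
  refine ⟨u, j0, hu, hj0, hj1, κ / 2, c1 / 2, by positivity, by positivity, a₀, fun a ha => ?_⟩
  exact ha₀ a ha

end Pool.Agent.Helper29.KP
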