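import Pool.Agent.Helper85.KP.StE

/-!
# Project KP (MP_26be5b_ag), module ERD: radial integrals
-/

set_option autoImplicit false

namespace Pool.Agent.Helper29.KP

open MeasureTheory Filter Set Pool.Agent.Helper52.KP Pool.Agent.Helper85.KP
open scoped Topology ENNReal

private theorem gam (k : ℕ) : IntegrableOn (fun s : ℝ => s ^ k * Real.exp (-s)) (Ioi 0) ∧
    ∫ s in Ioi (0 : ℝ), s ^ k * Real.exp (-s) = k.factorial := by
  have hk : (0 : ℝ) < (k : ℝ) + 1 := by positivity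
  have hfun : ∀ s ∈ Ioi (0 : ℝ), Real.exp (-s) * s ^ (((k : ℝ) + 1) - 1) =
      s ^ k * Real.exp (-s) := by
    intro s _
    rw [add_sub_cancel_right, Real.rpow_natCast, mul_comm]
  constructor
  · exact (Real.GammaIntegral_convergent hk).congr_fun hfun measurableSet_Ioi
  · rw [← Real.Gamma_nat_eq_factorial, Real.Gamma_eq_integral hk]
    exact (setIntegral_congr_fun measurableSet_Ioi hfun).symm

private theorem sum_scl {C : Cone} (hC : Good C) {D N : ℕ}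
    {s : Fin N → MvPolynomial (Fin C.m) ℂ} (hs : ∀ j, s j ∈ C.R D) (c : ℂ) (z : Fin C.m → ℂ) :
    ∑ j, ‖ev (s j) (scl C.w c z)‖ ^ 2 = ‖c‖ ^ (2 * D) * ∑ j, ‖ev (s j) z‖ ^ 2 := by
  rw [Finset.mul_sum]
  refine Finset.sum_congr rfl fun j _ => ?_
  rw [hC.hom D (s j) (hs j), norm_mul, norm_pow, mul_pow, ← pow_mul, mul_comm D 2]

private theorem keyA (hSCA : StSCA) (hVOL : StVOL) {C : Cone} (hC : Good C) {D N : ℕ}
    {s : Fin N → MvPolynomial (Fin C.m) ℂ} (hs : ∀ j, s j ∈ C.R D)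
    {x : (Fin C.m → ℂ) → ℝ} (hx : Measurable x) (hx0 : ∀ z, 0 ≤ x z) {B : ℝ}
    (hB : ∀ z ∈ C.U, x z ≤ B) (hxh : ∀ z ∈ C.U, ∀ c : ℂ, c ≠ 0 → x (scl C.w c z) = x z) :
    IntegrableOn (fun z => x z * ((∑ j, ‖ev (s j) z‖ ^ 2) / C.u z ^ (2 * D))) (S1 C) C.nu ∧
    ∀ (w : ℝ → ℝ) (W : ℝ), Continuous w → (∀ σ, 0 ≤ w σ) →
      IntegrableOn (fun σ : ℝ => σ ^ (2 * D) * w σ * Real.exp (-σ) * (C.m * σ ^ (C.m - 1)))
        (Ioi 0) →
      ∫ σ in Ioi (0 : ℝ), σ ^ (2 * D) * w σ * Real.exp (-σ) * (C.m * σ ^ (C.m - 1)) = W →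
      IntegrableOn (fun z => (∑ j, ‖ev (s j) z‖ ^ 2) * x z * w (C.u z) * Real.exp (-C.u z) *
        ‖ev C.J z‖ ^ 2) C.U ∧
      ∫ z in C.U, (∑ j, ‖ev (s j) z‖ ^ 2) * x z * w (C.u z) * Real.exp (-C.u z) *
        ‖ev C.J z‖ ^ 2 =
        W * ∫ z in S1 C, x z * ((∑ j, ‖ev (s j) z‖ ^ 2) / C.u z ^ (2 * D)) ∂C.nu := by
  classical
  have hUo : IsOpen C.U := by
    have h : Continuous fun z : Fin C.m → ℂ => ev C.Δ z := MvPolynomial.continuous_eval _
    exact isOpen_ne_fun h continuous_const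
  have hUm : MeasurableSet C.U := hUo.measurableSet
  have hJm : Measurable fun z : Fin C.m → ℂ => ENNReal.ofReal (‖ev C.J z‖ ^ 2) := by
    have h : Continuous fun z : Fin C.m → ℂ => ev C.J z := MvPolynomial.continuous_eval _
    exact ENNReal.measurable_ofReal.comp ((h.norm.pow 2).measurable)
  have hJm' : Measurable fun z : Fin C.m → ℂ => ‖ev C.J z‖ ^ 2 := by
    have h : Continuous fun z : Fin C.m → ℂ => ev C.J z := MvPolynomial.continuous_eval _
    exact (h.norm.pow 2).measurable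
  have hPm : Measurable fun z : Fin C.m → ℂ => ∑ j, ‖ev (s j) z‖ ^ 2 := by
    have h : Continuous fun z : Fin C.m → ℂ => ∑ j, ‖ev (s j) z‖ ^ 2 :=
      continuous_finset_sum _ fun j _ => ((MvPolynomial.continuous_eval (s j)).norm.pow 2)
    exact h.measurable
  obtain ⟨a, b, ha, hab⟩ := hC.ubd
  have hu0 : ∀ z ∈ C.U, 0 < C.u z := fun z hz =>
    (mul_pos ha (hC.Xpos z hz)).trans_le (hab z hz).1
  -- the function `ψ`
  obtain ⟨ψ, hψd⟩ : ∃ ψ : (Fin C.m → ℂ) → ℝ, ψ = C.U.piecewise C.u (fun _ => 1) := ⟨_, rfl⟩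
  have hψm : Measurable ψ := by
    rw [hψd]
    exact ContinuousOn.measurable_piecewise hC.usm.continuousOn continuousOn_const hUm
  have hψU : ∀ z ∈ C.U, ψ z = C.u z := fun z hz => by
    rw [hψd]
    exact piecewise_eq_of_mem _ _ _ hz
  have hS1 : {z | z ∈ C.U ∧ ψ z < 1} = S1 C := by
    ext z
    constructor
    · rintro ⟨h1, h2⟩
      exact ⟨h1, by rwa [hψU z h1] at h2⟩
    · rintro ⟨h1, h2⟩
      exact ⟨h1, by rwa [hψU z h1]⟩
  have hS1m : MeasurableSet (S1 C) := by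
    rw [← hS1]
    exact hUm.inter (hψm measurableSet_Iio)
  -- the function `f`
  obtain ⟨f, hfd⟩ : ∃ f : (Fin C.m → ℂ) → ℝ,
    f = fun z => x z * ((∑ j, ‖ev (s j) z‖ ^ 2) / ψ z ^ (2 * D)) := ⟨_, rfl⟩
  have hfm : Measurable f := by
    rw [hfd]
    exact hx.mul (hPm.div (hψm.pow_const _))
  have hψ0 : ∀ z, 0 < ψ z := by
    intro z
    by_cases hz : z ∈ C.U
    · rw [hψU z hz]
      exact hu0 z hz
    · rw [hψd, piecewise_eq_of_notMem _ _ _ hz]
      exact one_pos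
  have hP0 : ∀ z : Fin C.m → ℂ, 0 ≤ ∑ j, ‖ev (s j) z‖ ^ 2 := fun z =>
    Finset.sum_nonneg fun j _ => by positivity
  have hf0 : ∀ z, 0 ≤ f z := by
    intro z
    rw [hfd]
    exact mul_nonneg (hx0 z) (div_nonneg (hP0 z) (pow_nonneg (hψ0 z).le _))
  -- bound
  obtain ⟨G, hG⟩ : ∃ G : ℝ, 0 ≤ G ∧ ∀ z ∈ C.U, (∑ j, ‖ev (s j) z‖ ^ 2) / C.u z ^ (2 * D) ≤ G := by
    choose Bj hBj using fun j => hC.bdd D (s j) (hs j)
    refine ⟨∑ j, (|Bj j| * (a⁻¹) ^ D) ^ 2, Finset.sum_nonneg fun j _ => by positivity, ?_⟩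
    intro z hz
    have hsz := hC.Xpos z hz
    rw [Finset.sum_div]
    refine Finset.sum_le_sum fun j _ => ?_
    have h1 : ‖ev (s j) z‖ ≤ |Bj j| * (a⁻¹) ^ D * C.u z ^ D := by
      calc ‖ev (s j) z‖ ≤ Bj j * C.sz z ^ D := hBj j z
        _ ≤ |Bj j| * C.sz z ^ D := by gcongr; exact le_abs_self _
        _ ≤ |Bj j| * (a⁻¹ * C.u z) ^ D := by
          gcongr
          rw [inv_mul_eq_div, le_div_iff₀ ha, mul_comm]
          exact (hab z hz).1
        _ = |Bj j| * (a⁻¹) ^ D * C.u z ^ D := by rw [mul_pow]; ring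
    have h2 : 0 < C.u z ^ (2 * D) := pow_pos (hu0 z hz) _
    rw [div_le_iff₀ h2]
    calc ‖ev (s j) z‖ ^ 2 ≤ (|Bj j| * (a⁻¹) ^ D * C.u z ^ D) ^ 2 := by gcongr
      _ = (|Bj j| * (a⁻¹) ^ D) ^ 2 * C.u z ^ (2 * D) := by ring
  have hnu : C.nu (S1 C) ≠ ⊤ := by
    have := hVOL C hC
    unfold S1
    rw [this]
    exact ENNReal.ofReal_ne_top
  have hfi : IntegrableOn f (S1 C) C.nu := by
    refine Measure.integrableOn_of_bounded (M := |B| * G) hnu hfm.aestronglyMeasurable ?_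
    refine (ae_restrict_iff' hS1m).2 (Eventually.of_forall fun z hz => ?_)
    have hzU : z ∈ C.U := hz.1
    rw [Real.norm_of_nonneg (hf0 z), hfd]
    simp only
    rw [hψU z hzU]
    have h1 : x z ≤ |B| := (hB z hzU).trans (le_abs_self B)
    exact mul_le_mul h1 (hG.2 z hzU) (div_nonneg (hP0 z) (pow_nonneg (hu0 z hzU).le _))
      (abs_nonneg B)
  have hfS : ∀ z ∈ S1 C, f z = x z * ((∑ j, ‖ev (s j) z‖ ^ 2) / C.u z ^ (2 * D)) := by
    intro z hz
    rw [hfd]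
    simp only
    rw [hψU z hz.1]
  have hfi2 : ∫ z in S1 C, f z ∂C.nu =
      ∫ z in S1 C, x z * ((∑ j, ‖ev (s j) z‖ ^ 2) / C.u z ^ (2 * D)) ∂C.nu :=
    setIntegral_congr_fun hS1m hfS
  refine ⟨hfi.congr_fun hfS hS1m, ?_⟩
  intro w W hw hw0 hWi hW
  rw [← hfi2]
  have hm2 : 2 ≤ C.m := by
    have := hC.hm
    have := hC.hn
    omega
  have hW0 : 0 ≤ W := by
    rw [← hW]
    refine setIntegral_nonneg measurableSet_Ioi fun σ hσ => ?_
    have hσ' : 0 < σ := hσ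
    have := hw0 σ
    positivity
  obtain ⟨Φ, hΦd⟩ : ∃ Φ : ℝ → ENNReal, Φ = fun σ =>
    ENNReal.ofReal (σ ^ (2 * D) * w σ * Real.exp (-σ)) := ⟨_, rfl⟩
  have hΦm : Measurable Φ := by
    rw [hΦd]
    have : Continuous fun σ : ℝ => σ ^ (2 * D) * w σ * Real.exp (-σ) := by fun_prop
    exact ENNReal.measurable_ofReal.comp this.measurable
  have hgm : Measurable fun z => ENNReal.ofReal (f z) := ENNReal.measurable_ofReal.comp hfm
  have hlS : ∫⁻ z in S1 C, ENNReal.ofReal (f z) ∂C.nu =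
      ENNReal.ofReal (∫ z in S1 C, f z ∂C.nu) :=
    (ofReal_integral_eq_lintegral_ofReal hfi (Eventually.of_forall hf0)).symm
  have hmain := hSCA C hC 1 0 one_pos (by rw [add_zero]; exact_mod_cast (by omega : 0 < C.m))
    ψ (fun z => ENNReal.ofReal (f z)) hψm hgm ?_ ?_ Φ hΦm
  · rw [hS1, hlS] at hmain
    have hΦi : ∫⁻ σ in Ioi (0 : ℝ), Φ σ * ENNReal.ofReal (((C.m : ℝ) + 0) / 1 *
        σ ^ (((C.m : ℝ) + 0) / 1 - 1)) = ENNReal.ofReal W := by
      rw [← hW, ofReal_integral_eq_lintegral_ofReal hWi]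
      · refine setLIntegral_congr_fun measurableSet_Ioi fun σ hσ => ?_
        have hσ' : 0 < σ := hσ
        have h1 : ((C.m : ℝ) + 0) / 1 - 1 = ((C.m - 1 : ℕ) : ℝ) := by
          rw [Nat.cast_sub (by omega)]
          simp
        rw [h1, Real.rpow_natCast, add_zero, div_one, hΦd]
        simp only
        rw [← ENNReal.ofReal_mul]
        have := hw0 σ
        positivity
      · refine (ae_restrict_iff' measurableSet_Ioi).2 (Eventually.of_forall fun σ hσ => ?_)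
        have hσ' : 0 < σ := hσ
        have := hw0 σ
        simp only [Pi.zero_apply]
        positivity
    rw [hΦi, ← ENNReal.ofReal_mul hW0] at hmain
    -- the left side
    obtain ⟨F, hFd⟩ : ∃ F : (Fin C.m → ℂ) → ℝ, F = fun z => (∑ j, ‖ev (s j) z‖ ^ 2) * x z *
      w (C.u z) * Real.exp (-C.u z) * ‖ev C.J z‖ ^ 2 := ⟨_, rfl⟩
    have hF0 : ∀ z, 0 ≤ F z := by
      intro z
      rw [hFd]
      have h1 := hP0 z
      have h2 := hx0 z
      have h3 := hw0 (C.u z)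
      simp only
      positivity
    have hFm : AEStronglyMeasurable F (volume.restrict C.U) := by
      have h1 : Measurable fun z : Fin C.m → ℂ => (∑ j, ‖ev (s j) z‖ ^ 2) * x z *
          w (ψ z) * Real.exp (-ψ z) * ‖ev C.J z‖ ^ 2 :=
        (((hPm.mul hx).mul (hw.measurable.comp hψm)).mul
          (Real.measurable_exp.comp hψm.neg)).mul hJm'
      refine h1.aestronglyMeasurable.congr ?_
      refine (ae_restrict_iff' hUm).2 (Eventually.of_forall fun z hz => ?_)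
      rw [hFd]
      simp only
      rw [hψU z hz]
    have hleft : ∫⁻ z in C.U, ENNReal.ofReal (F z) =
        ENNReal.ofReal (W * ∫ z in S1 C, f z ∂C.nu) := by
      rw [← hmain]
      unfold Cone.nu
      have hmm : Measurable fun z => Φ (ψ z) * ENNReal.ofReal (f z) :=
        (hΦm.comp hψm).mul hgm
      rw [setLIntegral_withDensity_eq_setLIntegral_mul _ hJm hmm hUm]
      refine setLIntegral_congr_fun hUm fun z hz => ?_
      have h1 : 0 < C.u z := hu0 z hz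
      have h2 := hw0 (C.u z)
      simp only [Pi.mul_apply]
      rw [hΦd, hFd, hfd]
      simp only
      rw [hψU z hz, ← ENNReal.ofReal_mul (by positivity), ← ENNReal.ofReal_mul (by positivity)]
      congr 1
      field_simp
    have hFi : IntegrableOn F C.U := by
      refine ⟨hFm, ?_⟩
      rw [hasFiniteIntegral_iff_ofReal (Eventually.of_forall hF0), hleft]
      exact ENNReal.ofReal_lt_top
    have hFint : ∫ z in C.U, F z = W * ∫ z in S1 C, f z ∂C.nu := by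
      rw [integral_eq_lintegral_of_nonneg_ae (Eventually.of_forall hF0) hFm, hleft,
        ENNReal.toReal_ofReal]
      refine mul_nonneg hW0 (setIntegral_nonneg hS1m fun z _ => hf0 z)
    rw [hFd] at hFi hFint
    exact ⟨hFi, hFint⟩
  · intro z hz
    refine ⟨hψ0 z, fun c hc => ⟨?_, ?_⟩⟩
    · rw [hψU z hz, hψU _ (hC.sclU c hc z hz), hC.uhom z hz c hc, Real.rpow_one]
    · rw [Real.rpow_zero, ENNReal.ofReal_one, one_mul, hfd]
      simp only
      rw [hψU z hz, hψU _ (hC.sclU c hc z hz), hC.uhom z hz c hc, hxh z hz c hc, sum_scl hC hs,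
        mul_pow, mul_div_mul_left]
      have : 0 < ‖c‖ := norm_pos_iff.2 hc
      positivity
  · rw [hS1, hlS]
    exact ENNReal.ofReal_ne_top

private theorem keyB (hSCA : StSCA) (hVOL : StVOL) {C : Cone} (hC : Good C) {D N : ℕ}
    {s : Fin N → MvPolynomial (Fin C.m) ℂ} (hs : ∀ j, s j ∈ C.R D)
    {x : (Fin C.m → ℂ) → ℝ} (hx : Measurable x) {B : ℝ}
    (hB : ∀ z ∈ C.U, |x z| ≤ B) (hxh : ∀ z ∈ C.U, ∀ c : ℂ, c ≠ 0 → x (scl C.w c z) = x z)
    (w : ℝ → ℝ) (W : ℝ) (hw : Continuous w) (hw0 : ∀ σ, 0 ≤ w σ)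
    (hWi : IntegrableOn (fun σ : ℝ => σ ^ (2 * D) * w σ * Real.exp (-σ) *
      (C.m * σ ^ (C.m - 1))) (Ioi 0))
    (hW : ∫ σ in Ioi (0 : ℝ), σ ^ (2 * D) * w σ * Real.exp (-σ) *
      (C.m * σ ^ (C.m - 1)) = W) :
    IntegrableOn (fun z => (∑ j, ‖ev (s j) z‖ ^ 2) * x z * w (C.u z) * Real.exp (-C.u z) *
      ‖ev C.J z‖ ^ 2) C.U ∧
    ∫ z in C.U, (∑ j, ‖ev (s j) z‖ ^ 2) * x z * w (C.u z) * Real.exp (-C.u z) *
      ‖ev C.J z‖ ^ 2 =
      W * ∫ z in S1 C, x z * ((∑ j, ‖ev (s j) z‖ ^ 2) / C.u z ^ (2 * D)) ∂C.nu := by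
  have hp := keyA hSCA hVOL hC hs (x := fun z => max (x z) 0) (B := B) (hx.max measurable_const)
    (fun z => le_max_right _ _)
    (fun z hz => max_le ((le_abs_self _).trans (hB z hz)) ((abs_nonneg _).trans (hB z hz)))
    (fun z hz c hc => by simp only [hxh z hz c hc])
  have hn := keyA hSCA hVOL hC hs (x := fun z => max (-x z) 0) (B := B)
    (hx.neg.max measurable_const) (fun z => le_max_right _ _)
    (fun z hz => max_le ((neg_le_abs _).trans (hB z hz)) ((abs_nonneg _).trans (hB z hz)))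
    (fun z hz c hc => by simp only [hxh z hz c hc])
  obtain ⟨hp1, hp2⟩ := hp
  obtain ⟨hn1, hn2⟩ := hn
  obtain ⟨hp3, hp4⟩ := hp2 w W hw hw0 hWi hW
  obtain ⟨hn3, hn4⟩ := hn2 w W hw hw0 hWi hW
  have hxx : ∀ z, x z = max (x z) 0 - max (-x z) 0 := by
    intro z
    rcases le_total 0 (x z) with h | h
    · rw [max_eq_left h, max_eq_right (by linarith)]
      ring
    · rw [max_eq_right h, max_eq_left (by linarith)]
      ring
  have e1 : (fun z => (∑ j, ‖ev (s j) z‖ ^ 2) * x z * w (C.u z) * Real.exp (-C.u z) *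
      ‖ev C.J z‖ ^ 2) = fun z => (∑ j, ‖ev (s j) z‖ ^ 2) * max (x z) 0 * w (C.u z) *
      Real.exp (-C.u z) * ‖ev C.J z‖ ^ 2 - (∑ j, ‖ev (s j) z‖ ^ 2) * max (-x z) 0 * w (C.u z) *
      Real.exp (-C.u z) * ‖ev C.J z‖ ^ 2 := by
    funext z
    conv_lhs => rw [hxx z]
    ring
  have e2 : (fun z => x z * ((∑ j, ‖ev (s j) z‖ ^ 2) / C.u z ^ (2 * D))) = fun z =>
      max (x z) 0 * ((∑ j, ‖ev (s j) z‖ ^ 2) / C.u z ^ (2 * D)) -
      max (-x z) 0 * ((∑ j, ‖ev (s j) z‖ ^ 2) / C.u z ^ (2 * D)) := by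
    funext z
    conv_lhs => rw [hxx z]
    ring
  rw [e1, e2]
  refine ⟨hp3.sub hn3, ?_⟩
  rw [integral_sub hp3 hn3, integral_sub hp1 hn1, hp4, hn4]
  ring

theorem hERD (hSCA : StSCA) (hMOM : StMOM) (hVOL : StVOL) : StERD := by
  intro C hC D N hD s lam hO
  have hs : ∀ j, s j ∈ C.R D := by
    intro j
    rw [← hO.span]
    exact Submodule.subset_span ⟨j, rfl⟩
  have hm2 : 2 ≤ C.m := by
    have := hC.hm
    have := hC.hn
    omega
  have hUm : MeasurableSet C.U := by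
    have h : Continuous fun z : Fin C.m → ℂ => ev C.Δ z := MvPolynomial.continuous_eval _
    exact (isOpen_ne_fun h continuous_const).measurableSet
  have hD' : (0 : ℝ) < D := by exact_mod_cast hD
  have hPP : ∀ z, PP s lam 0 z = ∑ j, ‖ev (s j) z‖ ^ 2 := by
    intro z
    unfold PP
    refine Finset.sum_congr rfl fun j _ => ?_
    rw [zero_mul, Real.exp_zero, one_mul]
  have hKD : 0 < KD C D := by
    unfold KD
    positivity
  have hberg : ∀ z, KD C D * C.berg D s z = (∑ j, ‖ev (s j) z‖ ^ 2) / C.u z ^ (2 * D) := by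
    intro z
    unfold KD Cone.berg
    have h1 : ((2 * D + C.m - 1).factorial : ℝ) ≠ 0 := by positivity
    have h2 : (D : ℝ) ^ (C.m - 1) ≠ 0 := by positivity
    have h3 : (Real.pi / 2) ^ C.m ≠ 0 := by positivity
    rw [← mul_assoc]
    have h4 : (D : ℝ) ^ (C.m - 1) / ((2 * D + C.m - 1).factorial * (Real.pi / 2) ^ C.m) *
        ((2 * D + C.m - 1).factorial * (Real.pi / 2) ^ C.m / (D : ℝ) ^ (C.m - 1)) = 1 := by
      field_simp
    rw [h4, one_mul]
  have hI : ∀ x : (Fin C.m → ℂ) → ℝ,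
      ∫ z in S1 C, x z * ((∑ j, ‖ev (s j) z‖ ^ 2) / C.u z ^ (2 * D)) ∂C.nu =
      KD C D * I1 C (fun z => x z * C.berg D s z) := by
    intro x
    unfold I1
    rw [← integral_const_mul]
    refine integral_congr_ae (Eventually.of_forall fun z => ?_)
    simp only
    rw [← hberg]
    ring
  -- Gamma integrals
  obtain ⟨M, hMd⟩ : ∃ M : ℕ, M = 2 * D + C.m - 1 := ⟨_, rfl⟩
  have hM : M = 2 * D + (C.m - 1) := by omega
  obtain ⟨g0, g0'⟩ := gam M
  obtain ⟨g1, g1'⟩ := gam (M + 1)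
  obtain ⟨g2, g2'⟩ := gam (M + 2)
  -- the three weights
  have w1 : (fun σ : ℝ => σ ^ (2 * D) * (fun _ : ℝ => (1 : ℝ)) σ * Real.exp (-σ) *
      (C.m * σ ^ (C.m - 1))) = fun σ => (C.m : ℝ) * (σ ^ M * Real.exp (-σ)) := by
    funext σ
    rw [hM, pow_add]
    ring
  have w2 : (fun σ : ℝ => σ ^ (2 * D) * (fun σ : ℝ => 1 + σ ^ 2) σ * Real.exp (-σ) *
      (C.m * σ ^ (C.m - 1))) = fun σ => (C.m : ℝ) * (σ ^ M * Real.exp (-σ)) +
        (C.m : ℝ) * (σ ^ (M + 2) * Real.exp (-σ)) := by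
    funext σ
    rw [hM, pow_add, pow_add, pow_add]
    ring
  have w3 : (fun σ : ℝ => σ ^ (2 * D) * (fun σ : ℝ => (σ - 2 * D) ^ 2) σ * Real.exp (-σ) *
      (C.m * σ ^ (C.m - 1))) = fun σ => ((C.m : ℝ) * (σ ^ (M + 2) * Real.exp (-σ)) -
        (C.m * (4 * D) : ℝ) * (σ ^ (M + 1) * Real.exp (-σ))) +
        (C.m * (4 * D ^ 2) : ℝ) * (σ ^ M * Real.exp (-σ)) := by
    funext σ
    rw [hM, pow_add, pow_add, pow_add]
    ring
  have i1 : IntegrableOn (fun σ : ℝ => σ ^ (2 * D) * (fun _ : ℝ => (1 : ℝ)) σ * Real.exp (-σ) *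
      (C.m * σ ^ (C.m - 1))) (Ioi 0) := by
    rw [w1]
    exact g0.const_mul _
  have i2 : IntegrableOn (fun σ : ℝ => σ ^ (2 * D) * (fun σ : ℝ => 1 + σ ^ 2) σ *
      Real.exp (-σ) * (C.m * σ ^ (C.m - 1))) (Ioi 0) := by
    rw [w2]
    exact (g0.const_mul _).add (g2.const_mul _)
  have i3 : IntegrableOn (fun σ : ℝ => σ ^ (2 * D) * (fun σ : ℝ => (σ - 2 * D) ^ 2) σ *
      Real.exp (-σ) * (C.m * σ ^ (C.m - 1))) (Ioi 0) := by
    rw [w3]
    exact ((g2.const_mul _).sub (g1.const_mul _)).add (g0.const_mul _)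
  have v1 : ∫ σ in Ioi (0 : ℝ), σ ^ (2 * D) * (fun _ : ℝ => (1 : ℝ)) σ * Real.exp (-σ) *
      (C.m * σ ^ (C.m - 1)) = C.m * M.factorial := by
    rw [w1, integral_const_mul, g0']
  have v3 : ∫ σ in Ioi (0 : ℝ), σ ^ (2 * D) * (fun σ : ℝ => (σ - 2 * D) ^ 2) σ *
      Real.exp (-σ) * (C.m * σ ^ (C.m - 1)) =
      (2 * D + C.m + C.m ^ 2) * (C.m * M.factorial) := by
    have hsub : IntegrableOn (fun σ : ℝ => (C.m : ℝ) * (σ ^ (M + 2) * Real.exp (-σ)) -
        (C.m * (4 * D) : ℝ) * (σ ^ (M + 1) * Real.exp (-σ))) (Ioi 0) :=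
      (g2.const_mul _).sub (g1.const_mul _)
    have hq0 : IntegrableOn (fun σ : ℝ => (C.m * (4 * D ^ 2) : ℝ) * (σ ^ M * Real.exp (-σ)))
        (Ioi 0) := g0.const_mul _
    have hq1 : IntegrableOn (fun σ : ℝ => (C.m * (4 * D) : ℝ) * (σ ^ (M + 1) * Real.exp (-σ)))
        (Ioi 0) := g1.const_mul _
    have hq2 : IntegrableOn (fun σ : ℝ => (C.m : ℝ) * (σ ^ (M + 2) * Real.exp (-σ)))
        (Ioi 0) := g2.const_mul _
    rw [w3, integral_add hsub hq0, integral_sub hq2 hq1, integral_const_mul,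
      integral_const_mul, integral_const_mul, g0', g1', g2', Nat.factorial_succ (M + 1),
      Nat.factorial_succ M]
    have hMr : (M : ℝ) = 2 * D + C.m - 1 := by
      rw [hMd, Nat.cast_sub (by omega)]
      push_cast
      ring
    push_cast
    rw [hMr]
    ring
  have B := fun (x : (Fin C.m → ℂ) → ℝ) (B : ℝ) (hx : Measurable x)
    (hB : ∀ z ∈ C.U, |x z| ≤ B)
    (hxh : ∀ z ∈ C.U, ∀ c : ℂ, c ≠ 0 → x (scl C.w c z) = x z) =>
    keyB hSCA hVOL hC hs hx hB hxh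
  have hx1 := keyA hSCA hVOL hC hs (x := fun _ => (1 : ℝ)) measurable_const
    (fun _ => zero_le_one) (B := 1) (fun _ _ => le_rfl) (fun _ _ _ _ => rfl)
  rw [← hMd]
  refine ⟨?_, ?_, ?_⟩
  · have h1 := hx1.1.const_mul (KD C D)⁻¹
    refine h1.congr (Eventually.of_forall fun z => ?_)
    simp only
    rw [← hberg z, one_mul, ← mul_assoc, inv_mul_cancel₀ hKD.ne', one_mul]
  · have h1 := (hx1.2 (fun _ => (1 : ℝ)) (C.m * M.factorial) continuous_const
      (fun _ => zero_le_one) i1 v1).2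
    rw [hI] at h1
    simp only [one_mul, mul_one] at h1
    have h2 : ∫ z in C.U, (∑ j, ‖ev (s j) z‖ ^ 2) * Real.exp (-C.u z) * ‖ev C.J z‖ ^ 2 = N := by
      have h3 : ∀ j, ∫ z in C.U, ‖ev (s j) z * ev C.J z‖ ^ 2 * Real.exp (-C.u z) = 1 := by
        intro j
        have h4 := hO.on j j
        rw [if_pos rfl] at h4
        unfold inn at h4
        have h5 : ∀ z : Fin C.m → ℂ, ev (s j) z * ev C.J z * star (ev (s j) z * ev C.J z) *
            (Real.exp (-C.u z) : ℂ) =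
            ((‖ev (s j) z * ev C.J z‖ ^ 2 * Real.exp (-C.u z) : ℝ) : ℂ) := by
          intro z
          rw [← starRingEnd_apply, Complex.mul_conj, Complex.normSq_eq_norm_sq]
          push_cast
          rfl
        simp_rw [h5] at h4
        rw [integral_complex_ofReal] at h4
        exact_mod_cast h4
      have h4 : ∀ z, (∑ j, ‖ev (s j) z‖ ^ 2) * Real.exp (-C.u z) * ‖ev C.J z‖ ^ 2 =
          ∑ j, ‖ev (s j) z * ev C.J z‖ ^ 2 * Real.exp (-C.u z) := by
        intro z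
        rw [Finset.sum_mul, Finset.sum_mul]
        refine Finset.sum_congr rfl fun j _ => ?_
        rw [norm_mul, mul_pow]
        ring
      simp_rw [h4]
      rw [integral_finset_sum _ fun j _ => ((hMOM C hC).2.2.2 D (s j) (hs j)).2]
      simp_rw [h3]
      simp
    rw [h2] at h1
    rw [h1]
    ring
  · intro x B' hx hB' hxh
    have hb := B x B' hx hB' hxh
    refine ⟨?_, ?_, ?_⟩
    · have h1 := (hb (fun σ => 1 + σ ^ 2) _ (by fun_prop) (fun σ => by positivity) i2 rfl).1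
      simp only [hPP]
      exact h1
    · have h1 := (hb (fun _ => (1 : ℝ)) _ continuous_const (fun _ => zero_le_one) i1 v1).2
      rw [hI] at h1
      simp only [mul_one] at h1
      simp only [hPP]
      rw [h1]
      ring
    · have h1 := (hb (fun σ => (σ - 2 * D) ^ 2) _ (by fun_prop) (fun σ => by positivity) i3 v3).2
      rw [hI] at h1
      simp only [hPP]
      rw [h1]
      ring

end Pool.Agent.Helper29.KP
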