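import Pool.Agent.Helper52.KP.StM

/-!
# Project KP (MP_26be5b_ag), module SLP: the slope
-/

set_option autoImplicit false

namespace Pool.Agent.Helper29.KP

open MeasureTheory Filter Set Pool.Agent.Helper52.KP
open scoped Topology ENNReal

/-- slope at infinity of a convex function -/
theorem slope_inf {U : ℝ → ℝ} (hU : ConvexOn ℝ univ U) {c d : ℝ}
    (hc : ∀ t, 0 ≤ t → U t ≤ U 0 + c * t) (hd : HasDerivAt U d 0) :
    ∃ ℓ : ℝ, (∀ t, 0 ≤ t → U t ≤ U 0 + ℓ * t) ∧
      ∀ ε, 0 < ε → ∃ K : ℝ, ∀ t, 0 ≤ t → U 0 + (ℓ - ε) * t - K ≤ U t := by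
  obtain ⟨S, hS⟩ : ∃ S : Set ℝ, S = (fun t => (U t - U 0) / t) '' Ioi 0 := ⟨_, rfl⟩
  have hbd : BddAbove S := by
    refine ⟨c, ?_⟩
    rw [hS]
    rintro _ ⟨t, ht, rfl⟩
    have ht' : 0 < t := ht
    simp only
    rw [div_le_iff₀ ht']
    have := hc t ht'.le
    linarith
  have hne : S.Nonempty := by
    rw [hS]
    exact ⟨_, 1, Set.mem_Ioi.2 one_pos, rfl⟩
  refine ⟨sSup S, ?_, ?_⟩
  · intro t ht
    rcases ht.eq_or_lt with h0 | h0
    · rw [← h0]
      simp
    · have h1 : (U t - U 0) / t ≤ sSup S := le_csSup hbd (by rw [hS]; exact ⟨t, h0, rfl⟩)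
      rw [div_le_iff₀ h0] at h1
      linarith
  · intro ε hε
    obtain ⟨x, hx, hlt⟩ := exists_lt_of_lt_csSup hne (show sSup S - ε < sSup S by linarith)
    rw [hS] at hx
    obtain ⟨T, hT, rfl⟩ := hx
    have hT' : 0 < T := hT
    obtain ⟨q, hq⟩ : ∃ q : ℝ, q = sSup S - ε := ⟨_, rfl⟩
    rw [← hq] at hlt ⊢
    simp only at hlt
    have hK : 0 ≤ (|d| + |q|) * T := by positivity
    refine ⟨(|d| + |q|) * T, ?_⟩
    intro t ht
    rcases le_or_gt T t with h1 | h1
    · have ht0 : 0 < t := hT'.trans_le h1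
      have h2 := hU.secant_mono (mem_univ (0 : ℝ)) (mem_univ T) (mem_univ t) hT'.ne' ht0.ne' h1
      rw [sub_zero, sub_zero] at h2
      have h3 := hlt.le.trans h2
      rw [le_div_iff₀ ht0] at h3
      linarith
    · rcases ht.eq_or_lt with h0 | h0
      · rw [← h0]
        linarith
      · have h2 := hU.le_slope_of_hasDerivAt (mem_univ (0 : ℝ)) (mem_univ t) h0 hd
        rw [slope_def_field, sub_zero, le_div_iff₀ h0] at h2
        have h3 : -(|d| * T) ≤ d * t := by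
          have h4 : |d * t| ≤ |d| * T := by
            rw [abs_mul, abs_of_pos h0]
            exact mul_le_mul_of_nonneg_left h1.le (abs_nonneg d)
          exact (neg_le_neg h4).trans (neg_abs_le _)
        have h5 : q * t ≤ |q| * T := by
          have h4 : |q * t| ≤ |q| * T := by
            rw [abs_mul, abs_of_pos h0]
            exact mul_le_mul_of_nonneg_left h1.le (abs_nonneg q)
          exact (le_abs_self _).trans h4
        nlinarith

/-- leading coefficient of an expansion -/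
theorem tendsto_lead {x : ℕ → ℝ} {p : ℕ} (hp : 0 < p) {a a' K : ℝ}
    (h : ∀ k : ℕ, 0 < k → |x k - (a * (k : ℝ) ^ p + a' * (k : ℝ) ^ (p - 1))| * (k : ℝ) ^ 2 ≤
      K * (k : ℝ) ^ p) :
    Tendsto (fun k : ℕ => x k / (k : ℝ) ^ p) atTop (𝓝 a) := by
  rw [tendsto_iff_dist_tendsto_zero]
  have hlim : Tendsto (fun k : ℕ => |a'| * ((k : ℝ))⁻¹ + K * (((k : ℝ))⁻¹ * ((k : ℝ))⁻¹)) atTop
      (𝓝 (|a'| * 0 + K * (0 * 0))) :=
    (tendsto_inv_atTop_nhds_zero_nat.const_mul _).add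
      ((tendsto_inv_atTop_nhds_zero_nat.mul tendsto_inv_atTop_nhds_zero_nat).const_mul _)
  rw [show |a'| * 0 + K * (0 * 0) = (0 : ℝ) by ring] at hlim
  refine squeeze_zero' (Eventually.of_forall fun _ => dist_nonneg) ?_ hlim
  filter_upwards [eventually_gt_atTop 0] with k hk
  have hk' : (0 : ℝ) < k := by exact_mod_cast hk
  have hkp : (0 : ℝ) < (k : ℝ) ^ p := by positivity
  have h1 := h k hk
  rw [Real.dist_eq]
  have h2 : x k / (k : ℝ) ^ p - a = (x k - (a * (k : ℝ) ^ p + a' * (k : ℝ) ^ (p - 1))) / (k : ℝ) ^ p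
      + a' * ((k : ℝ))⁻¹ := by
    have h3 : (k : ℝ) ^ p = (k : ℝ) ^ (p - 1) * k := by
      rw [← pow_succ]
      congr 1
      omega
    have h4 : (k : ℝ) ^ (p - 1) ≠ 0 := by positivity
    rw [h3]
    field_simp
    ring
  rw [h2]
  refine (abs_add_le _ _).trans ?_
  rw [abs_div, abs_of_pos hkp, abs_mul, abs_of_pos (inv_pos.2 hk'), add_comm]
  gcongr
  rw [div_le_iff₀ hkp, ← mul_inv, ← _root_.sq]
  have hk2 : (0 : ℝ) < (k : ℝ) ^ 2 := by positivity
  rw [← le_div_iff₀ hk2] at h1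
  refine h1.trans (le_of_eq ?_)
  field_simp

theorem hSLP (hCVX : StCVX) (hADP : StADP) (hDER : StDER) (hLEV : StLEV) (hUPB : StUPB)
    (hDIF : StDIF) (hNUL : StNUL) : StSLP := by
  intro C hC r F hF a₀ a₁ b₀ b₁ hEx
  have hr : 0 < r := hF.hr
  have hn : 0 < C.n := hC.hn
  obtain ⟨Λ, hΛ⟩ := hADP C hC r F hF
  -- facts for every level
  have hfacts : ∀ k : ℕ, 0 < k → ∀ (N : ℕ) (s : Fin N → MvPolynomial (Fin C.m) ℂ)
      (lam : Fin N → ℕ), ONB C (C.n * r * k) s →
      (∀ t, 0 < C.ZZ s lam t) ∧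
      ConvexOn ℝ univ (fun t => -Real.log (C.ZZ s lam t)) ∧
      HasDerivAt (fun t => -Real.log (C.ZZ s lam t))
        ((∫ z in C.U, PPn 1 s lam 0 z * Real.exp (-PP s lam 0 z) * ‖ev C.J z‖ ^ 2) /
          C.ZZ s lam 0) 0 := by
    intro k hk N s lam hO
    have hD : 0 < C.n * r * k := by positivity
    have hd := hDIF C hC _ N hD s lam hO.span
    refine ⟨fun t => (hd t).1, hCVX C hC _ N hD s lam hO.span, ?_⟩
    have h1 := ((hd 0).2.2.1.log (hd 0).1.ne').neg
    rw [neg_div, neg_neg] at h1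
    exact h1
  obtain ⟨-, N₁, s₁, lam₁, hA₁, hO₁, hl₁, -, -⟩ := hΛ 1
  obtain ⟨hZ₁, hconv₁, hder₁⟩ := hfacts 1 one_pos N₁ s₁ lam₁ hO₁
  obtain ⟨U, hU⟩ : ∃ U : ℝ → ℝ, U = fun t => -Real.log (C.ZZ s₁ lam₁ t) := ⟨_, rfl⟩
  rw [← hU] at hconv₁ hder₁
  have hup : ∀ t, 0 ≤ t → U t ≤ U 0 + ((Λ * 1 : ℕ) * C.m / (2 * (C.n * r * 1 : ℕ)) : ℝ) * t := by
    intro t ht
    have h1 := hUPB C hC (C.n * r * 1) N₁ (by positivity) s₁ lam₁ (Λ * 1) hO₁.span hl₁ t ht
    have h2 := Real.log_le_log (mul_pos (hZ₁ 0) (Real.exp_pos _)) h1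
    rw [Real.log_mul (hZ₁ 0).ne' (Real.exp_pos _).ne', Real.log_exp] at h2
    rw [hU]
    simp only
    have h3 : t * ((Λ * 1 : ℕ) : ℝ) * C.m / (2 * ((C.n * r * 1 : ℕ) : ℝ)) =
        ((Λ * 1 : ℕ) * C.m / (2 * (C.n * r * 1 : ℕ)) : ℝ) * t := by ring
    rw [h3] at h2
    linarith
  obtain ⟨ℓ, hℓ1, hℓ2⟩ := slope_inf hconv₁ hup hder₁
  refine ⟨ℓ, ?_, ?_⟩
  · -- the bound of the volume
    intro N s lam hA ε hε
    obtain ⟨K, hK⟩ := hℓ2 ε hε
    obtain ⟨B, hB, hlev⟩ := hLEV C hC r F hF 1 one_pos N N₁ s lam s₁ lam₁ hA hA₁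
    refine ⟨B * (B * Real.exp (K - U 0)), ?_⟩
    intro t ht
    obtain ⟨h1, -, h2, -⟩ := hlev t ht
    have hUc : C.nu C.Uᶜ = 0 := by
      unfold Cone.nu
      have h3 : C.Uᶜ = {z : Fin C.m → ℂ | ev C.Δ z = 0} := by
        ext z
        unfold Cone.U
        simp
      apply withDensity_absolutelyContinuous
      rw [h3]
      exact hNUL C.m C.Δ hC.Δ0
    have h3 : C.nu {z | PP s lam t z ≤ 1} ≤ C.nu {z | z ∈ C.U ∧ PP s lam t z ≤ 1} := by
      have h4 : {z | PP s lam t z ≤ 1} ⊆ {z | z ∈ C.U ∧ PP s lam t z ≤ 1} ∪ C.Uᶜ := by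
        intro z hz
        by_cases hzU : z ∈ C.U
        · exact Or.inl ⟨hzU, hz⟩
        · exact Or.inr hzU
      refine (measure_mono h4).trans ((measure_union_le _ _).trans ?_)
      rw [hUc, add_zero]
    refine h3.trans (h2.trans (ENNReal.ofReal_le_ofReal ?_))
    have h5 : C.ZZ s₁ lam₁ t = Real.exp (-U t) := by
      rw [hU]
      simp only [neg_neg]
      rw [Real.exp_log (hZ₁ t)]
    have h6 := hK t ht
    calc B * C.ZZ s lam t ≤ B * (B * C.ZZ s₁ lam₁ t) := by gcongr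
      _ ≤ B * (B * (Real.exp (K - U 0) * Real.exp (-((ℓ - ε) * t)))) := by
        rw [h5, ← Real.exp_add]
        gcongr
        linarith
      _ = B * (B * Real.exp (K - U 0)) * Real.exp (-((ℓ - ε) * t)) := by ring
  · -- the bound of the slope
    have hkey : ∀ ε : ℝ, 0 < ε → ∀ᶠ k : ℕ in atTop,
        wF F k / (r * k) ≤ (ℓ + ε) * (Module.finrank ℂ (C.R (C.n * r * k)) : ℝ) := by
      intro ε hε
      have hD : Tendsto (fun k : ℕ => C.n * r * k) atTop atTop :=
        tendsto_id.const_mul_atTop' (by positivity)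
      have h1 := hD.eventually (hDER C hC (Λ : ℝ) ε hε)
      filter_upwards [h1, eventually_gt_atTop 0] with k hk hk0
      obtain ⟨-, N, s, lam, hA, hO, hl, hN, hw⟩ := hΛ k
      have hlD : ∀ j, (lam j : ℝ) ≤ (Λ : ℝ) * ((C.n * r * k : ℕ) : ℝ) := by
        intro j
        have h2 : lam j ≤ Λ * (C.n * r * k) := (hl j).trans (Nat.mul_le_mul_left _
          (Nat.le_mul_of_pos_left _ (by positivity)))
        exact_mod_cast h2
      have h2 := hk N s lam hO hlD
      obtain ⟨hZ, hconv, hder⟩ := hfacts k hk0 N s lam hO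
      obtain ⟨d, hd⟩ : ∃ d : ℝ, d = (∫ z in C.U, PPn 1 s lam 0 z * Real.exp (-PP s lam 0 z) *
        ‖ev C.J z‖ ^ 2) / C.ZZ s lam 0 := ⟨_, rfl⟩
      rw [← hd] at h2 hder
      -- `d ≤ ℓ`
      obtain ⟨B, hB, hlev⟩ := hLEV C hC r F hF k hk0 N₁ N s₁ lam₁ s lam hA₁ hA
      have hdl : d ≤ ℓ := by
        by_contra hcon
        push Not at hcon
        obtain ⟨c₁, hc₁⟩ : ∃ c₁ : ℝ, c₁ = U 0 + Real.log B + Real.log (C.ZZ s lam 0) := ⟨_, rfl⟩
        have h3 : ∀ t, 0 < t → (d - ℓ) * t ≤ c₁ := by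
          intro t ht
          have h4 := hconv.le_slope_of_hasDerivAt (mem_univ (0 : ℝ)) (mem_univ t) ht hder
          rw [slope_def_field, sub_zero, le_div_iff₀ ht] at h4
          have h5 := (hlev t ht.le).1
          have h6 := Real.log_le_log (hZ₁ t) h5
          rw [Real.log_mul hB.ne' (hZ t).ne'] at h6
          have h7 := hℓ1 t ht.le
          have h8 : U t = -Real.log (C.ZZ s₁ lam₁ t) := by rw [hU]
          rw [h8] at h7
          rw [hc₁]
          nlinarith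
        have h9 : 0 < d - ℓ := by linarith
        have h10 := h3 ((|c₁| + 1) / (d - ℓ)) (by positivity)
        rw [mul_div_cancel₀ _ h9.ne'] at h10
        have := le_abs_self c₁
        linarith
      have h3 : C.m / (2 * ((C.n * r * k : ℕ) : ℝ)) * ((∑ j, (lam j : ℝ)) / N) ≤ ℓ + ε := by
        have := (abs_le.1 h2).1
        linarith
      have hm : (C.m : ℝ) = 2 * C.n := by
        rw [hC.hm]
        push_cast
        ring
      have hn' : (0 : ℝ) < C.n := by exact_mod_cast hn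
      have hr' : (0 : ℝ) < r := by exact_mod_cast hr
      have hk' : (0 : ℝ) < k := by exact_mod_cast hk0
      rw [← hN, ← hw]
      rcases Nat.eq_zero_or_pos N with h0 | h0
      · subst h0
        simp
      · have hN' : (0 : ℝ) < N := by exact_mod_cast h0
        have h4 := mul_le_mul_of_nonneg_right h3 hN'.le
        refine le_trans (le_of_eq ?_) h4
        rw [hm]
        push_cast
        field_simp
    obtain ⟨K, hK⟩ := hEx
    have hlim1 : Tendsto (fun k : ℕ => (Module.finrank ℂ (C.R (C.n * r * k)) : ℝ) /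
        (k : ℝ) ^ (2 * C.n - 1)) atTop (𝓝 a₀) := by
      refine tendsto_lead (a' := a₁) (K := K) (by omega) fun k hk => ?_
      have := (hK k hk).1
      rwa [show 2 * C.n - 2 = 2 * C.n - 1 - 1 by omega] at this
    have hlim2 : Tendsto (fun k : ℕ => wF F k / (k : ℝ) ^ (2 * C.n)) atTop (𝓝 b₀) :=
      tendsto_lead (a' := b₁) (K := K) (by omega) fun k hk => (hK k hk).2
    have hr' : (0 : ℝ) < r := by exact_mod_cast hr
    have hε : ∀ ε : ℝ, 0 < ε → b₀ / r ≤ (ℓ + ε) * a₀ := by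
      intro ε hε
      refine le_of_tendsto_of_tendsto (hlim2.div_const (r : ℝ)) (hlim1.const_mul (ℓ + ε)) ?_
      filter_upwards [hkey ε hε, eventually_gt_atTop 0] with k hk hk0
      have hk' : (0 : ℝ) < k := by exact_mod_cast hk0
      have hp : (0 : ℝ) < (k : ℝ) ^ (2 * C.n - 1) := by positivity
      have h1 := div_le_div_of_nonneg_right hk hp.le
      rw [mul_div_assoc] at h1
      refine le_trans (le_of_eq ?_) h1
      have h3 : (k : ℝ) ^ (2 * C.n) = (k : ℝ) ^ (2 * C.n - 1) * k := by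
        rw [← pow_succ]
        congr 1
        omega
      rw [h3]
      field_simp
    refine le_of_forall_pos_le_add fun δ hδ => ?_
    have h1 := hε (δ / (|a₀| + 1)) (by positivity)
    refine h1.trans ?_
    rw [add_mul]
    gcongr
    have h2 : (0 : ℝ) < |a₀| + 1 := by positivity
    rw [div_mul_eq_mul_div, div_le_iff₀ h2]
    have := le_abs_self a₀
    nlinarith

end Pool.Agent.Helper29.KP
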